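import Pool.Agent.KS6_60.Lib.CXStep

/-! The Cook-Levin theorem: 3-SAT is NP-hard. -/

namespace Pool.Agent.KS6_60.Lib.CX

open Function

variable {α β γ V : Type}

/-- a clause with three literals; the literal `(x, b)` is true when variable `x` has value `b` -/
abbrev Cl3 (V : Type) := (V × Bool) × (V × Bool) × (V × Bool)

def Cl3.ok (v : V → Bool) (C : Cl3 V) : Prop := v C.1.1 = C.1.2 ∨ v C.2.1.1 = C.2.1.2 ∨ v C.2.2.1 = C.2.2.2

def Sat3 (φ : List (Cl3 V)) : Prop := ∃ v : V → Bool, ∀ C ∈ φ, C.ok v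

def Fits (pat : List (Option Bool)) (w : List Bool) : Prop := List.Forall₂ (fun o b => ∀ c, o = some c → b = c) pat w

def cells (K H : ℕ) : List Cell := List.range 4 ×ˢ List.range K ×ˢ List.range H

theorem mem_cells {K H x} : x ∈ cells K H ↔ x.1 < 4 ∧ x.2.1 < K ∧ x.2.2 < H := by
  obtain ⟨a, b, c⟩ := x; simp [cells]

open Classical in
noncomputable def lab (p : Prog) (κ : List Prog) : Cell := (4, (labels p).idxOf κ, 0)

theorem lab_inj {p κ κ'} (h : κ ∈ labels p) (e : lab p κ = lab p κ') : κ = κ' := by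
  classical
  simp only [lab, Prod.mk.injEq, true_and, and_true] at e
  exact (List.idxOf_inj h).1 e

def nst (p : Prog) : ℕ := ((labels p).map fun κ => (cnd κ).2.1).sum + 1

theorem cnd_lt {p κ} (h : κ ∈ labels p) : (cnd κ).2.1 < nst p :=
  Nat.lt_succ_of_le (List.le_sum_of_mem (List.mem_map_of_mem (f := fun κ => (cnd κ).2.1) h))

def ini (pat : List (Option Bool)) (x : Cell) : Option Bool :=
  if x.1 = 1 ∧ x.2.1 = 0 then pat.getD x.2.2 (some false)
  else some (if x.1 = 0 then decide (x.2.1 = 0 ∧ x.2.2 < pat.length) else decide (x.1 = 2))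

theorem Fits.ini {pat w x c} (h : Fits pat w) (e : ini pat x = some c) : cval (io w) x = c := by
  obtain ⟨d, i, j⟩ := x
  obtain ⟨h1, h2⟩ := List.forall₂_iff_get.1 h
  simp only [CX.ini] at e
  split at e
  · rename_i h3
    obtain ⟨rfl, rfl⟩ := h3
    by_cases hj : j < pat.length
    · have := h2 j hj (h1 ▸ hj) c (by simpa [hj] using e)
      simpa [cval, io, h1 ▸ hj] using this
    · simp [not_lt.1 hj] at e
      simp [cval, io, e, h1 ▸ not_lt.1 hj]
  · rename_i h3
    obtain rfl := Option.some.inj e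
    rcases d with _ | _ | d <;> rcases i with _ | i <;> simp_all [cval, io]

theorem fits_fill (pat : List (Option Bool)) (v : ℕ → Bool) : Fits pat (pat.mapIdx fun j o => o.getD (v j)) :=
  List.forall₂_iff_get.2 ⟨by simp, fun j h1 h2 c e => by simp at e; simp [e]⟩

theorem ini_none {pat x} (v : ℕ → Bool) (e : ini pat x = none) :
    x = (1, 0, x.2.2) ∧ cval (io (pat.mapIdx fun j o => o.getD (v j))) x = v x.2.2 := by
  obtain ⟨d, i, j⟩ := x
  simp only [CX.ini] at e
  split at e
  · rename_i h3
    obtain ⟨rfl, rfl⟩ := h3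
    by_cases hj : j < pat.length
    · simp [hj] at e
      simp [cval, io, hj, e]
    · simp [not_lt.1 hj] at e
  · cases e

def unit (x : V) (b : Bool) : Cl3 V := ((x, b), (x, b), (x, b))

noncomputable def tab (p : Prog) (a : List (Option Bool) × List Unit) : List (Cl3 (ℕ × Cell)) :=
  [unit (0, lab p [p]) true, unit (a.2.length, 1, 0, 1) true] ++
  (cells (nst p) (a.2.length + 2)).flatMap (fun x => (ini a.1 x).toList.map fun c => unit (0, x) c) ++
  (labels p).flatMap fun κ => (List.range a.2.length).flatMap fun t =>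
    [(((t, lab p κ), false), ((t, cnd κ), false), ((t + 1, lab p (nxt κ true)), true)),
      (((t, lab p κ), false), ((t, cnd κ), true), ((t + 1, lab p (nxt κ false)), true))] ++
    (cells (nst p) (a.2.length + 2)).flatMap fun x =>
      [(((t, lab p κ), false), ((t, src κ x), false), ((t + 1, x), true)),
        (((t, lab p κ), false), ((t, src κ x), true), ((t + 1, x), false))]

theorem PT.tab (p : Prog) : PT (tab p) := by
  refine PT.append (by unfold cells ini unit; fun_prop) (PT.flatMap_const _ fun κ _ => ?_)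
  have := PT.src κ
  unfold cells; fun_prop

theorem tab_iff (p : Prog) (pat : List (Option Bool)) (U : List Unit) :
    Sat3 (tab p (pat, U)) ↔ ∃ w, Fits pat w ∧ cval (step^[U.length] ([p], io w)).2 (1, 0, 1) = true := by
  simp only [Sat3, tab, List.forall_mem_append, List.forall_mem_flatMap, List.forall_mem_cons, List.forall_mem_map,
    List.not_mem_nil, IsEmpty.forall_iff, implies_true, and_true, Cl3.ok, unit, or_self, mem_cells, List.mem_range,
    Option.mem_toList]
  generalize U.length = T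
  constructor
  · rintro ⟨v, ⟨⟨h0, hT⟩, h1⟩, h2⟩
    refine ⟨_, fits_fill pat fun j => v (0, 1, 0, j), ?_⟩
    set w := pat.mapIdx fun j o => o.getD (v (0, 1, 0, j))
    have : ∀ t ≤ T, v (t, lab p (step^[t] ([p], io w)).1) = true ∧ ∀ x : Cell, x.1 < 4 → x.2.1 < nst p →
        x.2.2 + t < T + 2 → v (t, x) = cval (step^[t] ([p], io w)).2 x := fun t => by
      induction t with
      | zero =>
        refine fun _ => ⟨h0, fun x a b c => ?_⟩
        rcases e : ini pat x with _ | c
        · obtain ⟨e1, e2⟩ := ini_none (fun j => v (0, 1, 0, j)) e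
          exact (congrArg (fun y => v (0, y)) e1).trans e2.symm
        · exact (h1 x ⟨a, b, by omega⟩ c e).trans ((fits_fill pat _).ini e).symm
      | succ t ih =>
        intro ht
        obtain ⟨i1, i2⟩ := ih (by omega)
        have hl := run_label p (io w) t
        rw [iterate_succ_apply']
        generalize step^[t] ([p], io w) = c at *
        obtain ⟨κ, s⟩ := c
        obtain ⟨⟨a1, a2⟩, a3⟩ := h2 κ hl t (by omega)
        refine ⟨?_, fun x a b c => ?_⟩
        · rw [step_fst, ← i2 _ (cnd_bound κ).1 (cnd_lt hl) (by rw [(cnd_bound κ).2]; omega)]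
          cases h : v (t, cnd κ) <;> simp_all
        · obtain ⟨b1, b2, b3⟩ := src_bound κ x
          rw [step_snd, ← i2 _ (b1 a) (b2 ▸ b) (by omega)]
          have := a3 x ⟨a, b, by omega⟩
          cases h : v (t, src κ x) <;> simp_all
    rw [← (this T le_rfl).2 _ (by simp) (by simp [nst]) (by simp; omega), hT]
  · rintro ⟨w, hw, hT⟩
    classical
    refine ⟨fun y => if y.2.1 = 4 then decide (y.2 = lab p (step^[y.1] ([p], io w)).1)
      else cval (step^[y.1] ([p], io w)).2 y.2, ⟨⟨by simp [lab], by simpa using hT⟩, fun x hx c e => ?_⟩,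
      fun κ hκ t _ => ?_⟩
    · simpa [hx.1.ne] using hw.ini e
    · have l4 : ∀ κ, (lab p κ).1 = 4 := fun _ => rfl
      simp only [l4, if_true, (cnd_bound κ).1.ne, if_false, iterate_succ_apply', decide_eq_false_iff_not,
        decide_eq_true_eq]
      obtain ⟨⟨κ', s⟩, hc⟩ : ∃ c, step^[t] ([p], io w) = c := ⟨_, rfl⟩
      by_cases e : κ = κ'
      · subst e
        refine ⟨by rw [hc, step_fst]; cases cval s (cnd κ) <;> simp, fun x hx => ?_⟩
        simp [hx.1.ne, ((src_bound κ x).1 hx.1).ne, step_snd, hc, iterate_succ_apply', -iterate_succ]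
      · have : lab p κ ≠ lab p κ' := fun h => e (lab_inj hκ h)
        simp [this, hc]

def certPat (u : List Bool) (m : ℕ) : List (Option Bool) :=
  u.map some ++ ((List.replicate m [some true, some false, none]).flatten ++ [some false, some false])

theorem fits_certPat (u : List Bool) (m : ℕ) (w) :
    Fits (certPat u m) w ↔ ∃ y : List Bool, y.length = m ∧ w = u ++ enc y := by
  unfold Fits certPat
  induction u generalizing w with
  | nil =>
    simp only [List.map_nil, List.nil_append]
    induction m generalizing w with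
    | zero =>
      simp only [List.replicate_zero, List.flatten_nil, List.nil_append, List.forall₂_cons_left_iff,
        List.forall₂_nil_left_iff, List.length_eq_zero_iff]
      constructor
      · rintro ⟨a, _, h1, ⟨b, _, h2, rfl, rfl⟩, rfl⟩
        exact ⟨[], rfl, by rw [h1 _ rfl, h2 _ rfl]; rfl⟩
      · rintro ⟨_, rfl, rfl⟩
        exact ⟨false, [false], by simp, ⟨false, [], by simp, rfl, rfl⟩, rfl⟩
    | succ m ih =>
      simp only [List.replicate_succ, List.flatten_cons, List.cons_append, List.nil_append,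
        List.forall₂_cons_left_iff, ih]
      constructor
      · rintro ⟨a, _, h1, ⟨b, _, h2, ⟨c, _, -, ⟨y, rfl, rfl⟩, rfl⟩, rfl⟩, rfl⟩
        exact ⟨c :: y, rfl, by rw [h1 _ rfl, h2 _ rfl]; rfl⟩
      · rintro ⟨_ | ⟨c, y⟩, h, rfl⟩
        · cases h
        · exact ⟨true, _, by simp, ⟨false, _, by simp, ⟨c, _, by simp, ⟨y, by simpa using h, rfl⟩, rfl⟩, rfl⟩, rfl⟩
  | cons b u ih =>
    simp only [List.map_cons, List.cons_append, List.forall₂_cons_left_iff, ih]
    constructor
    · rintro ⟨a, _, h1, ⟨y, hy, rfl⟩, rfl⟩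
      exact ⟨y, hy, by rw [h1 _ rfl]⟩
    · rintro ⟨y, hy, rfl⟩
      exact ⟨b, _, by simp, ⟨y, hy, rfl⟩, rfl⟩

theorem cook [Enc α] {A : α → Prop} (h : InNP A) : Red A (Sat3 (V := ℕ × Cell)) := by
  obtain ⟨q, V, ⟨p, r, hV⟩, h⟩ := h
  refine ⟨fun a => tab p (certPat (true :: enc a) (q.eval (size a)),
    List.replicate (r.eval (size a + (3 * q.eval (size a) + 2) + 1)) ()),
    (PT.tab p).comp (by unfold certPat; fun_prop), fun a => ?_⟩
  have key : ∀ y : List Bool, y.length = q.eval (size a) →
      cval (step^[r.eval (size a + (3 * q.eval (size a) + 2) + 1)] ([p], io ((true :: enc a) ++ enc y))).2 (1, 0, 1) =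
        V (a, y) := fun y hy => by
    obtain ⟨n, m, hn, e⟩ := hV (a, y)
    rw [size_pair, size_bits y, hy] at hn
    exact (congrArg (fun c => cval c.2 (1, 0, 1)) (e.run_le hn)).trans rfl
  rw [h, tab_iff]
  simp only [fits_certPat, List.length_replicate]
  constructor
  · rintro ⟨y, hy, e⟩
    exact ⟨_, ⟨y, hy, rfl⟩, (key y hy).trans e⟩
  · rintro ⟨_, ⟨y, hy, rfl⟩, e⟩
    exact ⟨y, hy, (key y hy).symm.trans e⟩

def Cl3.vars (C : Cl3 V) : List V := [C.1.1, C.2.1.1, C.2.2.1]
def Cl3.map (f : V → β) (C : Cl3 V) : Cl3 β := ((f C.1.1, C.1.2), (f C.2.1.1, C.2.1.2), (f C.2.2.1, C.2.2.2))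

theorem sat3_map {φ : List (Cl3 V)} {f : V → β}
    (h : ∀ x ∈ φ.flatMap Cl3.vars, ∀ y ∈ φ.flatMap Cl3.vars, f x = f y → x = y) :
    Sat3 (φ.map (Cl3.map f)) ↔ Sat3 φ := by
  constructor
  · rintro ⟨v, hv⟩
    exact ⟨v ∘ f, fun C hC => hv _ (List.mem_map_of_mem hC)⟩
  · rintro ⟨v, hv⟩
    classical
    have : ∃ u : β → Bool, ∀ x ∈ φ.flatMap Cl3.vars, u (f x) = v x :=
      ⟨fun b => if h : ∃ x ∈ φ.flatMap Cl3.vars, f x = b then v h.choose else false, fun x hx => by
        have e : ∃ y ∈ φ.flatMap Cl3.vars, f y = f x := ⟨x, hx, rfl⟩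
        simp only [dif_pos e]; rw [h _ e.choose_spec.1 x hx e.choose_spec.2]⟩
    obtain ⟨u, hu⟩ := this
    refine ⟨u, List.forall_mem_map.2 fun C hC => ?_⟩
    have := fun x hx => hu x (List.mem_flatMap.2 ⟨C, hC, hx⟩)
    simp only [Cl3.vars, List.forall_mem_cons] at this
    simpa [Cl3.ok, Cl3.map, this] using hv C hC

/-- rename the variables to numbers below three times the number of clauses -/
def renum [DecidableEq V] (φ : List (Cl3 V)) : List (Cl3 ℕ) := φ.map (Cl3.map fun x => (φ.flatMap Cl3.vars).idxOf x)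

theorem PT.renum [DecidableEq V] [Enc V] : PT (renum (V := V)) := by
  unfold CX.renum Cl3.map Cl3.vars; fun_prop

theorem sat3_renum [DecidableEq V] (φ : List (Cl3 V)) : Sat3 (renum φ) ↔ Sat3 φ :=
  sat3_map fun _ hx _ _ e => (List.idxOf_inj hx).1 e

theorem renum_lt [DecidableEq V] (φ : List (Cl3 V)) : ∀ C ∈ renum φ, ∀ x ∈ C.vars, x < 3 * (renum φ).length := by
  have l : (φ.flatMap Cl3.vars).length = 3 * φ.length := by
    induction φ with
    | nil => rfl
    | cons C φ ih => simp only [List.flatMap_cons, List.length_append, ih]; simp [Cl3.vars]; omega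
  refine List.forall_mem_map.2 fun C hC => ?_
  have := fun x hx => List.idxOf_lt_length_of_mem (List.mem_flatMap.2 ⟨C, hC, hx⟩ : x ∈ φ.flatMap Cl3.vars)
  simp only [Cl3.vars, List.forall_mem_cons] at this
  simpa [Cl3.vars, Cl3.map, renum, ← l, this] using this

/-- reduction from 3-SAT over any encodable type of variables, to be correct only on normalised formulas -/
theorem Sat3.red [Enc V] [Enc β] {B : β → Prop} (f : List (Cl3 ℕ) → β) (hf : PT f)
    (h : ∀ φ, (∀ C ∈ φ, ∀ x ∈ C.vars, x < 3 * φ.length) → (Sat3 φ ↔ B (f φ))) : Red (Sat3 (V := V)) B := by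
  classical exact ⟨fun φ => f (renum φ), hf.comp PT.renum, fun φ => (sat3_renum φ).symm.trans (h _ (renum_lt φ))⟩

/-- NP-hardness by a reduction from 3-SAT with variables below three times the number of clauses -/
theorem NPHard.of_sat3 [Enc β] {B : β → Prop} (f : List (Cl3 ℕ) → β) (hf : PT f)
    (h : ∀ φ, (∀ C ∈ φ, ∀ x ∈ C.vars, x < 3 * φ.length) → (Sat3 φ ↔ B (f φ))) : NPHard B :=
  fun _ hA => (cook hA).trans (Sat3.red f hf h)

theorem sat3_hard : NPHard (Sat3 (V := ℕ)) := NPHard.of_sat3 _ PT.id fun _ _ => Iff.rfl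

end Pool.Agent.KS6_60.Lib.CX
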