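import Mathlib

/-!
Complexity classes over a deterministic multi-stack machine (structured programs acting on finitely many
binary stacks, one unit of time per instruction).
-/

namespace Pool.Agent.KS6_60.Lib.CX

/-- programs acting on binary stacks numbered `0, 1, 2, …` -/
inductive Prog
  | push (i : ℕ) (b : Bool)
  | pop (i : ℕ)
  | seq (p q : Prog)
  | ite (i : ℕ) (p q : Prog)
  | loop (i : ℕ) (p : Prog)

/-- contents of the stacks -/
abbrev St := ℕ → List Bool

/-- `Exec p s t n m` : started on stacks `s`, program `p` halts with stacks `t` after `n` steps, and no push makes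
a stack longer than `m`.  `ite i p q` runs `p` if the top of stack `i` is `true` and `q` otherwise;
`loop i p` repeats `p` while stack `i` is nonempty. -/
inductive Exec : Prog → St → St → ℕ → ℕ → Prop
  | push {i b s m} : (s i).length < m → Exec (.push i b) s (Function.update s i (b :: s i)) 1 m
  | pop {i s m} : Exec (.pop i) s (Function.update s i (s i).tail) 1 m
  | seq {p q s t u n k m} : Exec p s t n m → Exec q t u k m → Exec (.seq p q) s u (n + k + 1) m
  | iteT {i p q s t n m} : (s i).head? = some true → Exec p s t n m → Exec (.ite i p q) s t (n + 1) m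
  | iteF {i p q s t n m} : (s i).head? ≠ some true → Exec q s t n m → Exec (.ite i p q) s t (n + 1) m
  | loop0 {i p s m} : s i = [] → Exec (.loop i p) s s 1 m
  | loopS {i p s t u n k m} : s i ≠ [] → Exec p s t n m → Exec (.loop i p) t u k m →
      Exec (.loop i p) s u (n + k + 1) m

/-- the word `x` on stack 0, all other stacks empty -/
def io (x : List Bool) : St := fun i => if i = 0 then x else []

/-- binary trees with a bit at each leaf: the common data format -/
inductive Tr
  | leaf (b : Bool)
  | node (l r : Tr)
  deriving DecidableEq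

/-- the bit string of a tree (Polish order) -/
def Tr.code : Tr → List Bool
  | leaf b => [false, b]
  | node l r => true :: (l.code ++ r.code)

/-- a type with an injective encoding by trees -/
class Enc (α : Type) where
  tr : α → Tr
  inj : Function.Injective tr

/-- the bit string encoding `a` -/
def enc {α : Type} [Enc α] (a : α) : List Bool := (Enc.tr a).code

/-- the length of the encoding of `a` -/
def size {α : Type} [Enc α] (a : α) : ℕ := (enc a).length

instance : Enc Tr := ⟨id, fun _ _ h => h⟩

instance : Enc Bool := ⟨Tr.leaf, fun _ _ h => by injection h⟩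

instance : Enc Unit := ⟨fun _ => .leaf false, fun _ _ _ => rfl⟩

instance {α β : Type} [Enc α] [Enc β] : Enc (α × β) :=
  ⟨fun p => .node (Enc.tr p.1) (Enc.tr p.2), fun a b h => by
    injection h with h1 h2; exact Prod.ext (Enc.inj h1) (Enc.inj h2)⟩

/-- lists: `[]` is a leaf, `a :: l` is a node -/
def listTr {α : Type} [Enc α] : List α → Tr
  | [] => .leaf false
  | a :: l => .node (Enc.tr a) (listTr l)

theorem listTr_inj {α : Type} [Enc α] : Function.Injective (listTr (α := α))
  | [], [], _ => rfl
  | [], _ :: _, h => by cases h
  | _ :: _, [], h => by cases h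
  | a :: l, b :: m, h => by injection h with h1 h2; rw [Enc.inj h1, listTr_inj h2]

instance {α : Type} [Enc α] : Enc (List α) := ⟨listTr, listTr_inj⟩

theorem bits_inj : Function.Injective Nat.bits := fun a b h => by
  have : ∀ n : ℕ, n.bits.foldr Nat.bit 0 = n := fun n => by
    induction n using Nat.binaryRec' with
    | zero => simp
    | bit b n hb ih => rw [Nat.bits_append_bit n b hb, List.foldr_cons, ih]
  rw [← this a, h, this b]

/-- natural numbers in binary -/
instance : Enc ℕ := ⟨fun n => listTr n.bits, listTr_inj.comp bits_inj⟩

/-- integers: sign and absolute value -/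
instance : Enc ℤ := ⟨fun z => Enc.tr (decide (z < 0), z.natAbs), fun a b h => by
  have := Enc.inj h
  simp only [Prod.mk.injEq, decide_eq_decide] at this
  omega⟩

instance {α : Type} [Enc α] : Enc (Option α) := ⟨fun o => listTr o.toList, fun a b h => by
  have := listTr_inj h
  cases a <;> cases b <;> simp_all⟩

/-- a subtype is encoded as its base type -/
instance {α : Type} [Enc α] {P : α → Prop} : Enc (Subtype P) :=
  ⟨fun a => Enc.tr a.1, fun _ _ h => Subtype.ext (Enc.inj h)⟩

variable {α β : Type} [Enc α] [Enc β]

/-- `f` is computable in polynomial time -/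
def PT (f : α → β) : Prop :=
  ∃ (p : Prog) (q : Polynomial ℕ), ∀ a, ∃ n m, n ≤ q.eval (size a) ∧ Exec p (io (enc a)) (io (enc (f a))) n m

/-- `f` is computable in polynomial space -/
def PSp (f : α → β) : Prop :=
  ∃ (p : Prog) (q : Polynomial ℕ), ∀ a, ∃ n, Exec p (io (enc a)) (io (enc (f a))) n (q.eval (size a))

/-- the decision problem `A` is in P -/
def InP (A : α → Prop) : Prop := ∃ f : α → Bool, PT f ∧ ∀ a, A a ↔ f a = true

/-- the decision problem `A` is in NP -/
def InNP (A : α → Prop) : Prop :=
  ∃ (q : Polynomial ℕ) (V : α × List Bool → Bool), PT V ∧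
    ∀ a, A a ↔ ∃ y : List Bool, y.length = q.eval (size a) ∧ V (a, y) = true

/-- the decision problem `A` is in PSPACE -/
def InPSPACE (A : α → Prop) : Prop := ∃ f : α → Bool, PSp f ∧ ∀ a, A a ↔ f a = true

/-- polynomial-time many-one reduction -/
def Red (A : α → Prop) (B : β → Prop) : Prop := ∃ f : α → β, PT f ∧ ∀ a, A a ↔ B (f a)

/-- every language of bit strings in NP reduces to `B` -/
def NPHard (B : β → Prop) : Prop := ∀ A : List Bool → Prop, InNP A → Red A B

def NPComplete (B : β → Prop) : Prop := InNP B ∧ NPHard B

/-- every language of bit strings in PSPACE reduces to `B` -/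
def PSPACEHard (B : β → Prop) : Prop := ∀ A : List Bool → Prop, InPSPACE A → Red A B

def PSPACEComplete (B : β → Prop) : Prop := InPSPACE B ∧ PSPACEHard B

end Pool.Agent.KS6_60.Lib.CX
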