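import Pool.Agent.KS6_60.Lib.CXEtrDefs
import Pool.Agent.KS6_60.Lib.CXNP
import Pool.Agent.KS6_60.Lib.CXNat

/-! Reduction of formulas over the reals to systems of equations `y a * y b + y c = y d`. -/

namespace Pool.Agent.KS6_60.Lib.ER

open Pool.Agent.KS6_60.Lib.CX

abbrev Q4 := ℕ × ℕ × ℕ × ℕ

def Q4.ok (y : ℕ → ℝ) (e : Q4) : Prop := y e.1 * y e.2.1 + y e.2.2.1 = y e.2.2.2

def Q4.lt (N : ℕ) (e : Q4) : Prop := e.1 < N ∧ e.2.1 < N ∧ e.2.2.1 < N ∧ e.2.2.2 < N

/-- variable 0 is zero, variable 1 is one, and all equations hold -/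
def Sat (E : List Q4) (y : ℕ → ℝ) : Prop := y 0 = 0 ∧ y 1 = 1 ∧ ∀ e ∈ E, Q4.ok y e

theorem Q4.lt.mono {N M e} (h : Q4.lt N e) (l : N ≤ M) : Q4.lt M e := by
  unfold Q4.lt at *; omega

theorem Q4.ok_congr {N e} {y z : ℕ → ℝ} (h : Q4.lt N e) (l : ∀ i < N, z i = y i) (o : Q4.ok y e) : Q4.ok z e := by
  unfold Q4.ok at *; rw [l _ h.1, l _ h.2.1, l _ h.2.2.1, l _ h.2.2.2]; exact o

inductive Ex
  | leaf (v : ℕ)
  | op (k : ℕ) (a b : Ex)

open Classical in
noncomputable def opv (k : ℕ) (a b : ℝ) : ℝ :=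
  if k = 2 then a + b else if k = 4 then (if a = b then 1 else 0) else if k = 5 then (if a < b then 1 else 0)
  else if k = 6 then (if a ≤ b then 1 else 0) else if k = 7 then 1 - b else if k = 9 then a + b - a * b else a * b

noncomputable def Ex.eval (y : ℕ → ℝ) : Ex → ℝ
  | leaf v => y v
  | op k a b => opv k (a.eval y) (b.eval y)

def Ex.toks : Ex → List (Bool × ℕ)
  | leaf v => [(false, v)]
  | op k a b => (true, k) :: (a.toks ++ b.toks)

def Ex.Bd (B : ℕ) : Ex → Prop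
  | leaf v => v < B
  | op _ a b => a.Bd B ∧ b.Bd B

def gate (r : Q4) : List Q4 :=
  if r.1 = 2 then [(r.2.1, 1, r.2.2.1, r.2.2.2)]
  else if r.1 = 4 then [(1, r.2.2.2 + 1, r.2.2.1, r.2.1), (r.2.2.2, r.2.2.2 + 1, 0, 0), (r.2.2.2 + 1, r.2.2.2 + 2, r.2.2.2, 1)]
  else if r.1 = 5 then [(1, r.2.2.2 + 1, r.2.1, r.2.2.1), (r.2.2.2 + 2, r.2.2.2 + 2, 0, r.2.2.2 + 3),
    (r.2.2.2 + 1, r.2.2.2 + 3, 2, r.2.2.2 + 4), (r.2.2.2, r.2.2.2 + 4, 0, 0),
    (1, r.2.2.2 + 1, r.2.2.2 + 3, r.2.2.2 + 5), (r.2.2.2, r.2.2.2 + 5, 0, r.2.2.2 + 5)]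
  else if r.1 = 6 then [(1, r.2.2.2 + 1, r.2.1, r.2.2.1), (r.2.2.2 + 2, r.2.2.2 + 2, 0, r.2.2.2 + 3),
    (r.2.2.2 + 1, r.2.2.2 + 3, 1, r.2.2.2 + 4), (r.2.2.2, r.2.2.2 + 4, 0, r.2.2.2 + 4),
    (1, r.2.2.2 + 5, r.2.2.2 + 3, r.2.2.2 + 1), (r.2.2.2, r.2.2.2 + 5, 0, 0)]
  else if r.1 = 7 then [(1, r.2.2.2, r.2.2.1, 1)]
  else if r.1 = 9 then [(r.2.1, r.2.2.1, r.2.2.2, r.2.2.2 + 1), (r.2.1, 1, r.2.2.1, r.2.2.2 + 1)]
  else [(r.2.1, r.2.2.1, 0, r.2.2.2)]

def Base (y : ℕ → ℝ) : Prop := y 0 = 0 ∧ y 1 = 1 ∧ y 2 = -1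

theorem gate_sound {y k a b n} (hb : Base y) (h : ∀ e ∈ gate (k, a, b, n), Q4.ok y e) : y n = opv k (y a) (y b) := by
  obtain ⟨h0, h1, h2⟩ := hb
  unfold gate at h
  unfold opv
  split_ifs at h ⊢ with c1 c2 c3 c4 c5 c6 c7 c8 c9 <;>
    simp only [List.forall_mem_cons, Q4.ok, h0, h1, h2, List.not_mem_nil, false_imp_iff, implies_true, and_true] at h
  · linarith
  · obtain ⟨e1, e2, e3⟩ := h
    have : y (n + 1) = 0 := by linarith
    rw [this] at e3; linarith
  · obtain ⟨e1, e2, e3⟩ := h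
    have : y (n + 1) ≠ 0 := fun e => c3 (by linarith)
    simpa [this] using e2
  · obtain ⟨e1, e2, e3, e4, e5, e6⟩ := h
    have : 0 < y (n + 5) := by nlinarith [mul_self_nonneg (y (n + 2))]
    have : (y n - 1) * y (n + 5) = 0 := by linarith
    rcases mul_eq_zero.1 this with h | h <;> linarith
  · obtain ⟨e1, e2, e3, e4, e5, e6⟩ := h
    have : y (n + 1) ≤ 0 := by push Not at c5; linarith
    have : y (n + 4) < 0 := by nlinarith [mul_self_nonneg (y (n + 2))]
    rcases mul_eq_zero.1 (show y n * y (n + 4) = 0 by linarith) with h | h <;> linarith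
  · obtain ⟨e1, e2, e3, e4, e5, e6⟩ := h
    have : 0 < y (n + 4) := by nlinarith [mul_self_nonneg (y (n + 2))]
    have : (y n - 1) * y (n + 4) = 0 := by linarith
    rcases mul_eq_zero.1 this with h | h <;> linarith
  · obtain ⟨e1, e2, e3, e4, e5, e6⟩ := h
    have : y (n + 5) < 0 := by push Not at c7; nlinarith [mul_self_nonneg (y (n + 2))]
    rcases mul_eq_zero.1 (show y n * y (n + 5) = 0 by linarith) with h | h <;> linarith
  · linarith
  · linarith [h.1, h.2]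
  · linarith

theorem gate_lt {k a b n} (ha : a < n) (hb : b < n) (h3 : 3 ≤ n) : ∀ e ∈ gate (k, a, b, n), Q4.lt (n + 6) e := by
  unfold gate
  split_ifs <;> simp only [List.forall_mem_cons, Q4.lt, List.not_mem_nil, false_imp_iff, implies_true, and_true] <;> omega

theorem gate_complete {y k a b n} (hy : Base y) (ha : a < n) (hb : b < n) (h3 : 3 ≤ n) :
    ∃ z : ℕ → ℝ, (∀ i < n, z i = y i) ∧ ∀ e ∈ gate (k, a, b, n), Q4.ok z e := by
  obtain ⟨h0, h1, h2⟩ := hy
  have key : ∀ v0 v1 v2 v3 v4 v5 : ℝ, ∃ z : ℕ → ℝ, (∀ i < n, z i = y i) ∧ z 0 = 0 ∧ z 1 = 1 ∧ z 2 = -1 ∧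
      z a = y a ∧ z b = y b ∧ z n = v0 ∧ z (n + 1) = v1 ∧ z (n + 2) = v2 ∧
      z (n + 3) = v3 ∧ z (n + 4) = v4 ∧ z (n + 5) = v5 := fun v0 v1 v2 v3 v4 v5 =>
    ⟨fun i => if i < n then y i else [v0, v1, v2, v3, v4, v5].getD (i - n) 0, fun i hi => by simp [hi],
      by simp [show 0 < n by omega, h0], by simp [show 1 < n by omega, h1], by simp [show 2 < n by omega, h2],
      by simp [ha], by simp [hb], by simp, by simp, by simp, by simp, by simp, by simp⟩
  have fin : ∀ v0 v1 v2 v3 v4 v5 : ℝ, (∀ z : ℕ → ℝ, z 0 = 0 → z 1 = 1 → z 2 = -1 →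
      z a = y a → z b = y b → z n = v0 → z (n + 1) = v1 → z (n + 2) = v2 →
      z (n + 3) = v3 → z (n + 4) = v4 → z (n + 5) = v5 → ∀ e ∈ gate (k, a, b, n), Q4.ok z e) →
      ∃ z : ℕ → ℝ, (∀ i < n, z i = y i) ∧ ∀ e ∈ gate (k, a, b, n), Q4.ok z e := fun v0 v1 v2 v3 v4 v5 H => by
    obtain ⟨z, g, g0, g1, g2, g3, g4, g5, g6, g7, g8, g9, g10⟩ := key v0 v1 v2 v3 v4 v5
    exact ⟨z, g, H z g0 g1 g2 g3 g4 g5 g6 g7 g8 g9 g10⟩
  clear key
  by_cases c2 : k = 2
  · refine fin (y a + y b) 0 0 0 0 0 fun z g0 g1 g2 g3 g4 g5 g6 g7 g8 g9 g10 => ?_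
    simp [gate, c2, Q4.ok, *]
  by_cases c4 : k = 4
  · by_cases e : y a = y b
    · refine fin 1 0 0 0 0 0 fun z g0 g1 g2 g3 g4 g5 g6 g7 g8 g9 g10 => ?_
      simp [gate, c4, Q4.ok, *]
    · refine fin 0 (y a - y b) (y a - y b)⁻¹ 0 0 0 fun z g0 g1 g2 g3 g4 g5 g6 g7 g8 g9 g10 => ?_
      simp [gate, c4, Q4.ok, sub_ne_zero.2 e, g0, g1, g2, g3, g4, g5, g6, g7]
  by_cases c5 : k = 5
  · by_cases e : y a < y b
    · have p : 0 < y b - y a := by linarith
      refine fin 1 (y b - y a) √(y b - y a)⁻¹ (y b - y a)⁻¹ 0 (y b - y a + (y b - y a)⁻¹)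
        fun z g0 g1 g2 g3 g4 g5 g6 g7 g8 g9 g10 => ?_
      simp [gate, c5, Q4.ok, p.ne', g0, g1, g2, g3, g4, g5, g6, g7, g8, g9, g10,
        Real.mul_self_sqrt (inv_pos.2 p).le, -Real.sqrt_inv]
    · have p : 0 ≤ y a - y b := by push Not at e; linarith
      refine fin 0 (y b - y a) √(y a - y b) (y a - y b) ((y b - y a) * (y a - y b) - 1) 0
        fun z g0 g1 g2 g3 g4 g5 g6 g7 g8 g9 g10 => ?_
      simp [gate, c5, Q4.ok, g0, g1, g2, g3, g4, g5, g6, g7, g8, g9, g10, Real.mul_self_sqrt p]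
      ring
  by_cases c6 : k = 6
  · by_cases e : y a ≤ y b
    · have p : 0 ≤ y b - y a := by linarith
      refine fin 1 (y b - y a) √(y b - y a) (y b - y a) ((y b - y a) * (y b - y a) + 1) 0
        fun z g0 g1 g2 g3 g4 g5 g6 g7 g8 g9 g10 => ?_
      simp [gate, c6, Q4.ok, g0, g1, g2, g3, g4, g5, g6, g7, g8, g9, g10, Real.mul_self_sqrt p]
    · have p : 0 < y a - y b := by push Not at e; linarith
      refine fin 0 (y b - y a) √(y a - y b)⁻¹ (y a - y b)⁻¹ 0 (y b - y a - (y a - y b)⁻¹)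
        fun z g0 g1 g2 g3 g4 g5 g6 g7 g8 g9 g10 => ?_
      simp [gate, c6, Q4.ok, g0, g1, g2, g3, g4, g5, g6, g7, g8, g9, g10,
        Real.mul_self_sqrt (inv_pos.2 p).le, -Real.sqrt_inv]
      field_simp
      ring
  by_cases c7 : k = 7
  · refine fin (1 - y b) 0 0 0 0 0 fun z g0 g1 g2 g3 g4 g5 g6 g7 g8 g9 g10 => ?_
    simp [gate, c7, Q4.ok, *]
  by_cases c9 : k = 9
  · refine fin (y a + y b - y a * y b) (y a + y b) 0 0 0 0 fun z g0 g1 g2 g3 g4 g5 g6 g7 g8 g9 g10 => ?_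
    simp [gate, c9, Q4.ok, *]
  · refine fin (y a * y b) 0 0 0 0 0 fun z g0 g1 g2 g3 g4 g5 g6 g7 g8 g9 g10 => ?_
    simp [gate, Q4.ok, *]

def Ex.out (B : ℕ) : Ex → ℕ → ℕ
  | leaf v, _ => v
  | op _ a b, p => B + 6 * (p + b.toks.length + a.toks.length)

def Ex.recs (B : ℕ) : Ex → ℕ → List Q4
  | leaf _, _ => []
  | op k a b, p => (k, a.out B (p + b.toks.length), b.out B p, B + 6 * (p + b.toks.length + a.toks.length)) ::
      (a.recs B (p + b.toks.length) ++ b.recs B p)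

def stp (B : ℕ) (s : List ℕ × List Q4) (t : (Bool × ℕ) × ℕ) : List ℕ × List Q4 :=
  if t.1.1 = true then ((B + 6 * t.2) :: s.1.tail.tail, (t.1.2, s.1.headD 0, s.1.tail.headD 0, B + 6 * t.2) :: s.2)
  else (t.1.2 :: s.1, s.2)

theorem fold_stp (B) (e : Ex) : ∀ p st R, (e.toks.reverse.zipIdx p).foldl (stp B) (st, R) =
    (e.out B p :: st, e.recs B p ++ R) := by
  induction e with
  | leaf v => intro p st R; simp [Ex.toks, stp, Ex.out, Ex.recs]
  | op k a b iha ihb =>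
    intro p st R
    simp only [Ex.toks, List.reverse_cons, List.reverse_append, List.zipIdx_append, List.foldl_append, iha, ihb,
      List.length_reverse, List.length_append]
    simp [stp, Ex.out, Ex.recs, add_assoc]

theorem Ex.out_lt {B} (e : Ex) (h : e.Bd B) (p) : e.out B p < B + 6 * (p + e.toks.length) := by
  cases e <;> simp [Ex.out, Ex.toks, Ex.Bd] at * <;> omega

theorem Ex.eqs_lt {B} (h3 : 3 ≤ B) (e : Ex) (h : e.Bd B) : ∀ p, ∀ q ∈ (e.recs B p).flatMap gate,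
    Q4.lt (B + 6 * (p + e.toks.length)) q := by
  induction e with
  | leaf v => simp [Ex.recs]
  | op k a b iha ihb =>
    intro p q hq
    simp only [Ex.recs, List.flatMap_cons, List.flatMap_append, List.mem_append] at hq
    simp only [Ex.toks, List.length_cons, List.length_append]
    have h1 := a.out_lt h.1 (p + b.toks.length)
    have h2 := b.out_lt h.2 p
    rcases hq with hq | hq | hq
    · exact (gate_lt (by omega) (by omega) (by omega) q hq).mono (by omega)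
    · exact (iha h.1 _ q hq).mono (by omega)
    · exact (ihb h.2 _ q hq).mono (by omega)

theorem Ex.sound {B y} (hy : Base y) (e : Ex) : ∀ p, (∀ q ∈ (e.recs B p).flatMap gate, Q4.ok y q) →
    y (e.out B p) = e.eval y := by
  induction e with
  | leaf v => simp [Ex.out, Ex.eval]
  | op k a b iha ihb =>
    intro p h
    simp only [Ex.recs, List.flatMap_cons, List.flatMap_append, List.forall_mem_append] at h
    simp only [Ex.out, Ex.eval]
    rw [gate_sound hy h.1, iha _ h.2.1, ihb _ h.2.2]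

theorem Base.congr {n} {y z : ℕ → ℝ} (h : Base y) (h3 : 3 ≤ n) (l : ∀ i < n, z i = y i) : Base z :=
  ⟨by rw [l _ (by omega), h.1], by rw [l _ (by omega), h.2.1], by rw [l _ (by omega), h.2.2]⟩

theorem Ex.complete {B} (h3 : 3 ≤ B) (e : Ex) (h : e.Bd B) : ∀ p y, Base y →
    ∃ z : ℕ → ℝ, (∀ i < B + 6 * p, z i = y i) ∧ ∀ q ∈ (e.recs B p).flatMap gate, Q4.ok z q := by
  induction e with
  | leaf v => intro p y _; exact ⟨y, fun _ _ => rfl, by simp [Ex.recs]⟩
  | op k a b iha ihb =>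
    intro p y hy
    obtain ⟨z1, a1, b1⟩ := ihb h.2 p y hy
    have hz1 := hy.congr (by omega) a1
    obtain ⟨z2, a2, b2⟩ := iha h.1 (p + b.toks.length) z1 hz1
    have hz2 := hz1.congr (by omega) a2
    have h1 := a.out_lt h.1 (p + b.toks.length)
    have h2 := b.out_lt h.2 p
    obtain ⟨z3, a3, b3⟩ := gate_complete (k := k) (a := a.out B (p + b.toks.length)) (b := b.out B p)
      (n := B + 6 * (p + b.toks.length + a.toks.length)) hz2 (by omega) (by omega) (by omega)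
    refine ⟨z3, fun i hi => by rw [a3 i (by omega), a2 i (by omega), a1 i hi], ?_⟩
    simp only [Ex.recs, List.flatMap_cons, List.flatMap_append, List.forall_mem_append]
    exact ⟨b3, fun q hq => Q4.ok_congr (a.eqs_lt h3 h.1 _ q hq) a3 (b2 q hq), fun q hq =>
      Q4.ok_congr (b.eqs_lt h3 h.2 _ q hq) (fun i hi => by rw [a3 i (by omega), a2 i hi]) (b1 q hq)⟩

theorem Ex.eval_congr {B} {y z : ℕ → ℝ} (l : ∀ i < B, z i = y i) (e : Ex) (h : e.Bd B) : e.eval z = e.eval y := by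
  induction e with
  | leaf v => exact l v h
  | op k a b iha ihb => simp only [Ex.eval, iha h.1, ihb h.2]

def two : Ex := .op 2 (.leaf 1) (.leaf 1)

def binEx : List Bool → Ex
  | [] => .leaf 0
  | b :: l => .op 2 (.leaf (if b = true then 1 else 0)) (.op 3 two (binEx l))

def numEx (c : ℤ) : Ex := .op 3 (.leaf (if c < 0 then 2 else 1)) (binEx c.natAbs.bits)

def Tm.ex (ρ : ℕ → ℕ) : Tm → Ex
  | var i => .leaf (ρ i)
  | num c => numEx c
  | add s t => .op 2 (s.ex ρ) (t.ex ρ)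
  | mul s t => .op 3 (s.ex ρ) (t.ex ρ)

def Fm.ex (ρ : ℕ → ℕ) : Fm → Ex
  | eq s t => .op 4 (s.ex ρ) (t.ex ρ)
  | lt s t => .op 5 (s.ex ρ) (t.ex ρ)
  | le s t => .op 6 (s.ex ρ) (t.ex ρ)
  | not f => .op 7 (.leaf 0) (f.ex ρ)
  | and f g => .op 8 (f.ex ρ) (g.ex ρ)
  | or f g => .op 9 (f.ex ρ) (g.ex ρ)

def binToks (l : List Bool) : List (Bool × ℕ) :=
  l.flatMap (fun b => [(true, 2), (false, if b = true then 1 else 0), (true, 3), (true, 2), (false, 1), (false, 1)]) ++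
    [(false, 0)]

theorem binEx_toks (l) : (binEx l).toks = binToks l := by
  induction l with
  | nil => rfl
  | cons b l ih => simp [binEx, Ex.toks, two, ih, binToks]

def gT (ρ : ℕ → ℕ) (t : ℕ × ℤ) : List (Bool × ℕ) :=
  if t.1 = 0 then [(false, ρ t.2.natAbs)]
  else if t.1 = 1 then (true, 3) :: (false, if t.2 < 0 then 2 else 1) :: binToks t.2.natAbs.bits
  else if t.1 = 7 then [(true, 7), (false, 0)] else [(true, t.1)]

theorem Tm.ex_toks (ρ) (t : Tm) : (t.ex ρ).toks = t.toks.flatMap (gT ρ) := by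
  induction t <;> simp_all [Tm.ex, Tm.toks, Ex.toks, gT, numEx, binEx_toks]

theorem Fm.ex_toks (ρ) (f : Fm) : (f.ex ρ).toks = f.toks.flatMap (gT ρ) := by
  induction f <;> simp_all [Fm.ex, Fm.toks, Ex.toks, gT, Tm.ex_toks]

theorem binEx_eval {y} (hy : Base y) (n : ℕ) : (binEx n.bits).eval y = n := by
  induction n using Nat.binaryRec' with
  | zero => simp [binEx, Ex.eval, hy.1]
  | bit b n hb ih =>
    rw [Nat.bits_append_bit n b hb]
    cases b <;> simp [binEx, Ex.eval, opv, two, ih, hy.1, hy.2.1, Nat.bit, one_add_one_eq_two, add_comm]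

theorem numEx_eval {y} (hy : Base y) (c : ℤ) : (numEx c).eval y = c := by
  simp only [numEx, Ex.eval, opv, binEx_eval hy]
  split_ifs with h <;> simp_all [hy.2.1, hy.2.2, abs_of_neg, abs_of_nonneg]

theorem Tm.ex_eval {y ρ} (hy : Base y) (t : Tm) : (t.ex ρ).eval y = t.eval fun i => y (ρ i) := by
  induction t <;> simp_all [Tm.ex, Ex.eval, Tm.eval, opv, numEx_eval hy]

open Classical in
theorem Fm.ex_eval {y ρ} (hy : Base y) (f : Fm) :
    (f.ex ρ).eval y = if f.Holds (fun i => y (ρ i)) then 1 else 0 := by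
  induction f with
  | eq s t => simp [Fm.ex, Ex.eval, opv, Fm.Holds, Tm.ex_eval hy] <;> congr
  | lt s t => simp [Fm.ex, Ex.eval, opv, Fm.Holds, Tm.ex_eval hy] <;> congr
  | le s t => simp [Fm.ex, Ex.eval, opv, Fm.Holds, Tm.ex_eval hy] <;> congr
  | not f ih => simp only [Fm.ex, Ex.eval, opv, Fm.Holds, ih]; split_ifs <;> simp_all
  | and f g ih ih' => simp only [Fm.ex, Ex.eval, opv, Fm.Holds, ih, ih']; split_ifs <;> simp_all
  | or f g ih ih' => simp only [Fm.ex, Ex.eval, opv, Fm.Holds, ih, ih']; split_ifs <;> simp_all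

def vars (l : List (ℕ × ℤ)) : List ℕ := (l.filter fun t => t.1 = 0).map fun t => t.2.natAbs

theorem Tm.eval_congr {x z : ℕ → ℝ} (t : Tm) (h : ∀ i ∈ vars t.toks, x i = z i) : t.eval x = t.eval z := by
  induction t <;> simp_all [Tm.eval, Tm.toks, vars, or_imp, forall_and]

theorem vars_sub {l m : List (ℕ × ℤ)} (h : l ⊆ m) {i} (hi : i ∈ vars l) : i ∈ vars m := by
  simp only [vars, List.mem_map, List.mem_filter] at hi ⊢
  obtain ⟨a, ⟨h1, h2⟩, h3⟩ := hi
  exact ⟨a, ⟨h h1, h2⟩, h3⟩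

theorem Fm.holds_congr {x z : ℕ → ℝ} (f : Fm) (h : ∀ i ∈ vars f.toks, x i = z i) : f.Holds x ↔ f.Holds z := by
  have l : ∀ (a : ℕ × ℤ) (s t : List (ℕ × ℤ)), s ⊆ a :: (s ++ t) ∧ t ⊆ a :: (s ++ t) := fun a s t =>
    ⟨fun x hx => by simp [hx], fun x hx => by simp [hx]⟩
  have e : ∀ s t : Tm, ∀ a : ℕ × ℤ, (∀ i ∈ vars (a :: (s.toks ++ t.toks)), x i = z i) →
      s.eval x = s.eval z ∧ t.eval x = t.eval z := fun s t a h =>
    ⟨s.eval_congr fun i hi => h i (vars_sub (l _ _ _).1 hi), t.eval_congr fun i hi => h i (vars_sub (l _ _ _).2 hi)⟩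
  induction f with
  | eq s t => obtain ⟨a, b⟩ := e s t _ h; simp [Fm.Holds, a, b]
  | lt s t => obtain ⟨a, b⟩ := e s t _ h; simp [Fm.Holds, a, b]
  | le s t => obtain ⟨a, b⟩ := e s t _ h; simp [Fm.Holds, a, b]
  | not f ih => exact not_congr (ih (by simpa [vars, Fm.toks] using h))
  | and f g ih ih' =>
    exact and_congr (ih fun i hi => h i (vars_sub (l _ _ _).1 hi)) (ih' fun i hi => h i (vars_sub (l _ _ _).2 hi))
  | or f g ih ih' =>
    exact or_congr (ih fun i hi => h i (vars_sub (l _ _ _).1 hi)) (ih' fun i hi => h i (vars_sub (l _ _ _).2 hi))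

theorem binEx_bd {B} (h : 3 ≤ B) (l) : (binEx l).Bd B := by
  induction l with
  | nil => simp [binEx, Ex.Bd]; omega
  | cons b l ih => simp only [binEx, Ex.Bd, two, ih]; split_ifs <;> simp <;> omega

theorem Tm.ex_bd {B ρ} (h : 3 ≤ B) (hρ : ∀ i, ρ i < B) (t : Tm) : (t.ex ρ).Bd B := by
  induction t with
  | num c => simp only [Tm.ex, numEx, Ex.Bd, binEx_bd h]; split_ifs <;> simp <;> omega
  | _ => simp_all [Tm.ex, Ex.Bd]

theorem Fm.ex_bd {B ρ} (h : 3 ≤ B) (hρ : ∀ i, ρ i < B) (f : Fm) : (f.ex ρ).Bd B := by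
  induction f <;> simp_all [Fm.ex, Ex.Bd, Tm.ex_bd h hρ]
  omega

def rho (k : ℕ) (V : List ℕ) (i : ℕ) : ℕ := if i < k then 3 + i else 3 + k + V.idxOf i

def bas (a : List Unit × Fm) : ℕ := 4 + a.1.length + (vars a.2.toks).length

def tk (a : List Unit × Fm) : List (Bool × ℕ) := a.2.toks.flatMap (gT (rho a.1.length (vars a.2.toks)))

def run (a : List Unit × Fm) : List ℕ × List Q4 := (tk a).reverse.zipIdx.foldl (stp (bas a)) ([], [])

def comp (a : List Unit × Fm) : List Unit × List Q4 :=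
  (List.replicate (bas a + 6 * (tk a).length) (), ((run a).1.headD 0, 1, 0, 1) :: (1, 2, 1, 0) :: (run a).2.flatMap gate)

@[fun_prop] theorem pt_toks {α : Type} [Enc α] {f : α → Fm} (h : PT f) : PT fun a => (f a).toks := h.cast fun _ => rfl

theorem pt_tk : PT tk := by unfold tk gT rho vars binToks; fun_prop

theorem pt_bas : PT bas := by unfold bas vars; fun_prop

theorem pb_bas : PB bas := by unfold bas vars; fun_prop

theorem pt_run : PT run := by
  have := pt_tk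
  have := pt_bas
  have := pb_bas
  refine PT.foldl_add (F := fun a => stp (bas a)) (i := fun _ => ([], [])) (l := fun a => (tk a).reverse.zipIdx)
    (D := fun a => 20 + 5 * size (tk a).reverse.zipIdx + 2 * size (bas a) + 2 * size (6 : ℕ)) (by unfold stp; fun_prop) (by fun_prop)
    (by fun_prop) (by fun_prop) fun a s x hx => ?_
  obtain ⟨st, R⟩ := s
  obtain ⟨⟨b, v⟩, p⟩ := x
  have h1 := size_mem hx
  have h2 := size_add_le (bas a) (6 * p)
  have h3 := size_mul_le 6 p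
  have h4 : size (0 : ℕ) = 2 := rfl
  simp only [size_pair, size_bool] at h1
  unfold stp
  rcases st with _ | ⟨c, _ | ⟨d, st⟩⟩ <;> split_ifs <;>
    simp only [size_pair, size_cons, size_nil, List.tail_nil, List.tail_cons, List.headD_nil, List.headD_cons] <;> omega

theorem pt_comp : PT comp := by
  have := pt_tk
  have := pt_bas
  have := pb_bas
  have := pt_run
  unfold comp gate
  fun_prop

theorem rho_lt (a : List Unit × Fm) (i) : rho a.1.length (vars a.2.toks) i < bas a := by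
  have := List.idxOf_le_length (a := i) (l := vars a.2.toks)
  unfold rho bas; split_ifs <;> omega

theorem run_eq (a) : run a = ([(a.2.ex (rho a.1.length (vars a.2.toks))).out (bas a) 0],
    (a.2.ex (rho a.1.length (vars a.2.toks))).recs (bas a) 0) := by
  unfold run tk
  rw [← Fm.ex_toks, fold_stp]; simp

theorem comp_lt (a) : a.1.length + 3 ≤ (comp a).1.length ∧ ∀ e ∈ (comp a).2, Q4.lt (comp a).1.length e := by
  have h3 : 4 + a.1.length ≤ bas a := by unfold bas; omega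
  have hb := a.2.ex_bd (by omega) (rho_lt a)
  have h1 := Ex.out_lt _ hb 0
  have h2 := Ex.eqs_lt (by omega) _ hb 0
  simp only [comp, run_eq, List.length_replicate, List.forall_mem_cons, tk, ← Fm.ex_toks, List.headD_cons, Q4.lt,
    zero_add] at h1 h2 ⊢
  exact ⟨by omega, by omega, by omega, h2⟩

theorem comp_iff (a : List Unit × Fm) (u : ℕ → ℝ) : (∃ x : ℕ → ℝ, (∀ i < a.1.length, x i = u i) ∧ a.2.Holds x) ↔
    ∃ y : ℕ → ℝ, (∀ i < a.1.length, y (3 + i) = u i) ∧ Sat (comp a).2 y := by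
  have h3 : 4 + a.1.length ≤ bas a := by unfold bas; omega
  have hb := a.2.ex_bd (by omega) (rho_lt a)
  simp only [comp, run_eq, List.headD_cons, Sat, List.forall_mem_cons, Q4.ok]
  constructor
  · rintro ⟨x, hu, hx⟩
    let y : ℕ → ℝ := fun j => if j = 0 then 0 else if j = 1 then 1 else if j = 2 then -1 else
      if j < 3 + a.1.length then x (j - 3) else x ((vars a.2.toks).getD (j - (3 + a.1.length)) 0)
    have hy : Base y := by simp [Base, y]
    obtain ⟨z, hz, h⟩ := Ex.complete (by omega) _ hb 0 y hy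
    have hz' := hy.congr (by omega) hz
    refine ⟨z, fun i hi => ?_, hz'.1, hz'.2.1, ?_, by simp [hz'.1, hz'.2.1, hz'.2.2], h⟩
    · rw [hz _ (by omega), ← hu i hi]
      simp [y, hi, show 3 + i ≠ 1 by omega, show 3 + i ≠ 2 by omega]
    · rw [Ex.sound hz' _ _ h, Fm.ex_eval hz', hz'.1, hz'.2.1, if_pos]
      · simp
      · refine (a.2.holds_congr fun i hi => ?_).1 hx
        rw [hz _ (by have := rho_lt a i; omega)]
        unfold rho
        split_ifs with c
        · simp [y, c, show 3 + i ≠ 1 by omega, show 3 + i ≠ 2 by omega]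
        · simp only [y]
          rw [if_neg (by omega), if_neg (by omega), if_neg (by omega), if_neg (by omega), Nat.add_sub_cancel_left,
            List.getD_eq_getElem?_getD, List.getElem?_idxOf hi]
          rfl
  · rintro ⟨y, hu, h0, h1, ho, h2, h⟩
    have hy : Base y := ⟨h0, h1, by rw [h0, h1] at h2; linarith⟩
    refine ⟨fun i => y (rho a.1.length (vars a.2.toks) i), fun i hi => by simp [rho, hi, hu], ?_⟩
    rw [Ex.sound hy _ _ h, Fm.ex_eval hy, h0, h1] at ho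
    by_contra c
    simp [c] at ho

/-- hardness for the existential theory of the reals from systems `y a * y b + y c = y d` -/
theorem etr_of_qs {β : Type} [Enc β] {B : β → Prop} (f : List Unit × List Q4 → β) (hf : PT f)
    (h : ∀ N E, 3 ≤ N.length → (∀ e ∈ E, Q4.lt N.length e) → ((∃ y, Sat E y) ↔ B (f (N, E)))) : Red ETR B := by
  refine ⟨fun φ => f (comp ([], φ)), hf.comp (pt_comp.comp (by fun_prop)), fun φ => ?_⟩
  rw [← h _ _ (by simpa using (comp_lt ([], φ)).1) (comp_lt ([], φ)).2]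
  simpa [ETR] using comp_iff ([], φ) 0

theorem aetr_of_qs {β : Type} [Enc β] {B : β → Prop} (f : List Unit × List Unit × List Q4 → β) (hf : PT f)
    (h : ∀ k N E, k.length + 3 ≤ N.length → (∀ e ∈ E, Q4.lt N.length e) →
      ((∀ u : ℕ → ℝ, ∃ y, (∀ i < k.length, y (3 + i) = u i) ∧ Sat E y) ↔ B (f (k, N, E)))) : Red AETR B := by
  have := pt_comp
  refine ⟨fun a => f (a.1, comp a), hf.comp (by fun_prop), fun a => ?_⟩
  rw [← h _ _ _ (comp_lt a).1 (comp_lt a).2]
  exact forall_congr' (comp_iff a)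

end Pool.Agent.KS6_60.Lib.ER
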