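import Pool.Agent.KS6_60.Lib.CXEtrH

/-! Systems `y a * y b + y c = y d` whose solutions can be taken in the unit cube. -/

namespace Pool.Agent.KS6_60.Lib.ER

open Pool.Agent.KS6_60.Lib.CX

def bq (a : List Unit × List Q4) : List Unit × List Q4 :=
  (List.replicate (4 * a.1.length + 3 * a.2.length + 7) (),
    [(1, 1, 1, 1), (1 + a.1.length, 0, 1 + a.1.length, 0), (1, 1, 1 + a.1.length + (3 * a.1.length + a.2.length + 5), 2)] ++
    (List.range (3 * a.1.length + a.2.length + 5)).map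
      (fun k => (1 + a.1.length + k, 1 + a.1.length + k, 1, 1 + a.1.length + (k + 1))) ++
    (List.range a.2.length).flatMap fun k =>
      [(1 + (a.2.getD k (0, 0, 0, 0)).2.2.1, 2, 1, 4 * a.1.length + a.2.length + 7 + 2 * k),
       (1 + (a.2.getD k (0, 0, 0, 0)).1, 1 + (a.2.getD k (0, 0, 0, 0)).2.1, 4 * a.1.length + a.2.length + 7 + 2 * k,
          4 * a.1.length + a.2.length + 7 + 2 * k + 1),
       (1 + (a.2.getD k (0, 0, 0, 0)).2.2.2, 2, 1, 4 * a.1.length + a.2.length + 7 + 2 * k + 1)])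

theorem pt_bq : PT bq := by unfold bq; fun_prop

theorem getD_mem {E : List Q4} {k} (hk : k < E.length) : E.getD k (0, 0, 0, 0) ∈ E := by
  rw [List.getD_eq_getElem _ _ hk]; exact List.getElem_mem hk

theorem bq_lt {N E} (h3 : 3 ≤ N.length) (hE : ∀ e ∈ E, Q4.lt N.length e) :
    ∀ e ∈ (bq (N, E)).2, Q4.lt (bq (N, E)).1.length e := by
  simp only [bq, List.forall_mem_flatMap, List.forall_mem_cons, List.forall_mem_append, List.forall_mem_map,
    List.mem_range, List.length_replicate, List.not_mem_nil, false_imp_iff, implies_true, and_true]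
  refine ⟨⟨by simp only [Q4.lt]; omega, fun k hk => by simp only [Q4.lt]; omega⟩, fun k hk => ?_⟩
  have := hE _ (getD_mem hk)
  simp only [Q4.lt] at this ⊢
  omega

theorem bq_sound {N E x} (h0 : x 0 ≠ 0) (h : ∀ e ∈ (bq (N, E)).2, Q4.ok x e) : ∃ y, Sat E y := by
  simp only [bq, List.forall_mem_flatMap, List.forall_mem_cons, List.forall_mem_append, List.forall_mem_map,
    List.mem_range, List.not_mem_nil, false_imp_iff, implies_true, and_true, Q4.ok] at h
  obtain ⟨⟨⟨h1, h2, h3⟩, h4⟩, h5⟩ := h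
  have z : x 1 = 0 := mul_self_eq_zero.1 (by linarith)
  have e : ∀ k ≤ 3 * N.length + E.length + 5, x (1 + N.length + k) ≠ 0 := fun k hk => by
    induction k with
    | zero => intro c; rw [add_zero] at c; simp [c, h0.symm] at h2
    | succ k ih => rw [← h4 k (by omega), z, add_zero]; exact mul_self_ne_zero.2 (ih (by omega))
  have w : x 2 ≠ 0 := by rw [← h3, z, mul_zero, zero_add]; exact e _ le_rfl
  refine ⟨fun i => x (1 + i) / x 2, by simp [z], div_self w, fun q hq => ?_⟩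
  obtain ⟨k, hk, rfl⟩ := List.getElem_of_mem hq
  have := h5 k hk
  rw [List.getD_eq_getElem _ _ hk, z] at this
  unfold Q4.ok
  field_simp
  linarith [this.1, this.2.1, this.2.2]

theorem bq_complete {N E y} (h3 : 3 ≤ N.length) (hE : ∀ e ∈ E, Q4.lt N.length e) (hy : Sat E y) :
    ∃ x : ℕ → ℝ, x 0 = 1 ∧ (∀ i, |x i| ≤ 1) ∧ ∀ e ∈ (bq (N, E)).2, Q4.ok x e := by
  simp only [bq, List.forall_mem_flatMap, List.forall_mem_cons, List.forall_mem_append, List.forall_mem_map,
    List.mem_range, List.not_mem_nil, false_imp_iff, implies_true, and_true, Q4.ok]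
  obtain ⟨z, ⟨h0, h1, h⟩, hz⟩ := ball (by omega) hE hy
  rw [show 4 * N.length + E.length + 7 = 1 + N.length + (3 * N.length + E.length + 5) + 1 by omega]
  generalize 3 * N.length + E.length + 5 = L at *
  generalize N.length = n at *
  let w : ℕ → ℝ := fun i => (2 ^ 2 ^ L)⁻¹ * z i
  have hw : ∀ i, |w i| ≤ 1 := fun i => by
    rw [abs_mul, abs_inv, abs_of_pos (by positivity), inv_mul_le_iff₀ (by positivity), mul_one]; exact hz i
  let x : ℕ → ℝ := fun i => if i = 0 then 1 else if i < 1 + n then w (i - 1) else if i < 1 + n + L + 1 then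
    (2 ^ 2 ^ (i - (1 + n)))⁻¹ else if (i - (1 + n + L + 1)) % 2 = 0 then
      w (E.getD ((i - (1 + n + L + 1)) / 2) (0, 0, 0, 0)).2.2.1 * w 1 else
      w (E.getD ((i - (1 + n + L + 1)) / 2) (0, 0, 0, 0)).2.2.2 * w 1
  have x1 : ∀ i < n, x (1 + i) = w i := fun i hi => by simp [x, hi]
  have x2 : ∀ k ≤ L, x (1 + n + k) = (2 ^ 2 ^ k)⁻¹ := fun k hk => by
    simp only [x]; rw [if_neg (by omega), if_neg (by omega), if_pos (by omega), Nat.add_sub_cancel_left]
  have x3 : ∀ k, x (1 + n + L + 1 + 2 * k) = w (E.getD k (0, 0, 0, 0)).2.2.1 * w 1 := fun k => by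
    simp only [x]; rw [if_neg (by omega), if_neg (by omega), if_neg (by omega), if_pos (by omega),
      show (1 + n + L + 1 + 2 * k - (1 + n + L + 1)) / 2 = k by omega]
  have x4 : ∀ k, x (1 + n + L + 1 + 2 * k + 1) = w (E.getD k (0, 0, 0, 0)).2.2.2 * w 1 := fun k => by
    simp only [x]; rw [if_neg (by omega), if_neg (by omega), if_neg (by omega), if_neg (by omega),
      show (1 + n + L + 1 + 2 * k + 1 - (1 + n + L + 1)) / 2 = k by omega]
  have a0 : x 0 = 1 := rfl
  have a1 : x 1 = 0 := (x1 0 (by omega)).trans (by simp [w, h0])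
  have a2 : x 2 = w 1 := x1 1 (by omega)
  have a3 := x2 0 (by omega)
  rw [add_zero] at a3
  refine ⟨x, a0, fun i => ?_, ⟨⟨by simp [a1], by rw [a3, a0]; norm_num, ?_⟩, fun k hk => ?_⟩, fun k hk => ?_⟩
  · have m : ∀ a, |w a * w 1| ≤ 1 := fun a => by rw [abs_mul]; exact mul_le_one₀ (hw _) (abs_nonneg _) (hw _)
    simp only [x]
    split_ifs
    · simp
    · exact hw _
    · rw [abs_of_pos (by positivity)]; exact inv_le_one_of_one_le₀ (one_le_pow₀ (by norm_num))
    · exact m _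
    · exact m _
  · rw [a1, a2, x2 _ le_rfl]; simp [w, h1]
  · rw [a1, x2 _ hk.le, x2 _ hk, pow_succ 2 k, pow_mul]
    field_simp
    ring
  · obtain ⟨c1, c2, c3, c4⟩ := hE _ (getD_mem hk)
    have := h _ (getD_mem hk)
    rw [x1 _ c1, x1 _ c2, x1 _ c3, x1 _ c4, x3, x4, a1, a2]
    refine ⟨by simp, ?_, by simp⟩
    simp only [w, h1]
    rw [← this]
    ring

/-- hardness from systems with solutions in the unit cube and first coordinate one -/
theorem etr_of_bq {β : Type} [Enc β] {B : β → Prop} (f : List Unit × List Q4 → β) (hf : PT f)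
    (h : ∀ M E, 0 < M.length → (∀ e ∈ E, Q4.lt M.length e) →
      ((∃ x : ℕ → ℝ, x 0 = 1 ∧ (∀ i, |x i| ≤ 1) ∧ ∀ e ∈ E, Q4.ok x e) → B (f (M, E))) ∧
      (B (f (M, E)) → ∃ x : ℕ → ℝ, x 0 ≠ 0 ∧ ∀ e ∈ E, Q4.ok x e)) : Red ETR B :=
  etr_of_qs (fun a => f (bq a)) (hf.comp pt_bq) fun N E h3 hE => by
    obtain ⟨h1, h2⟩ := h _ _ (by simp [bq]) (bq_lt h3 hE)
    exact ⟨fun ⟨y, hy⟩ => h1 (bq_complete h3 hE hy), fun b => let ⟨x, h0, hx⟩ := h2 b; bq_sound h0 hx⟩

end Pool.Agent.KS6_60.Lib.ER
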