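import Pool.Agent.KS6_60.Lib.CXEtr
import Pool.Agent.KS6_60.Lib.Ball

/-! Bounded solutions, and hardness of homogeneous quadratic feasibility. -/

namespace Pool.Agent.KS6_60.Lib.ER

open Pool.Agent.KS6_60.Lib.CX Finset

noncomputable def ex {N : ℕ} (x : Fin N → ℝ) (v : ℕ) : ℝ := if h : v < N then x ⟨v, h⟩ else 0

noncomputable def dv {N : ℕ} (i : Fin N) (v : ℕ) : ℝ := if v = i.1 then 1 else 0

theorem Po.ex {N d B} {f : (Fin N → ℝ) → ℝ} (h : Po d B f) (v : ℕ) : Po (d + 1) B fun x => ex x v * f x := by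
  by_cases c : v < N
  · exact (h.var ⟨v, c⟩).congr fun x => by simp [ER.ex, c]
  · exact (Po.zero B).congr fun x => by simp [ER.ex, c]

theorem po_dv {N} (i : Fin N) (v) : Po 0 1 fun _ : Fin N → ℝ => dv i v := Po.one.ite _

theorem der_ex {N} (x : Fin N → ℝ) (i v) : HasDerivAt (fun t => ex (Function.update x i t) v) (dv i v) (x i) := by
  by_cases c : v = i.1
  · simpa [ex, dv, c] using hasDerivAt_id' (x i)
  · have : ∀ t, ex (Function.update x i t) v = ex x v := fun t => by
      unfold ex; split_ifs with h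
      · rw [Function.update_of_ne fun e => c (congrArg Fin.val e)]
      · rfl
    simpa [this, dv, c] using hasDerivAt_const (x i) (ex x v)

@[fun_prop] theorem cont_ex {N} (v) : Continuous fun x : Fin N → ℝ => ex x v := by
  unfold ex; split_ifs <;> fun_prop

noncomputable def df (y : ℕ → ℝ) (E : List Q4) : ℝ :=
  y 0 ^ 2 + (y 1 - 1) ^ 2 + (E.map fun e => (y e.1 * y e.2.1 + y e.2.2.1 - y e.2.2.2) ^ 2).sum

theorem df_nonneg (y E) : 0 ≤ df y E :=
  add_nonneg (by positivity) (List.sum_nonneg (List.forall_mem_map.2 fun _ _ => sq_nonneg _))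

theorem df_zero (y E) : df y E = 0 ↔ Sat E y := by
  constructor
  · intro h
    unfold df at h
    have p : ∀ r ∈ E.map fun e => (y e.1 * y e.2.1 + y e.2.2.1 - y e.2.2.2) ^ 2, 0 ≤ r :=
      List.forall_mem_map.2 fun _ _ => sq_nonneg _
    have p0 := List.sum_nonneg p
    have p2 := sq_nonneg (y 0)
    have p3 := sq_nonneg (y 1 - 1)
    refine ⟨pow_eq_zero_iff two_ne_zero |>.1 (by linarith),
      sub_eq_zero.1 (pow_eq_zero_iff two_ne_zero |>.1 (by linarith)), fun q hq => ?_⟩
    have := List.single_le_sum p _ (List.mem_map_of_mem hq)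
    exact sub_eq_zero.1 (pow_eq_zero_iff two_ne_zero |>.1 (le_antisymm (by linarith) (sq_nonneg _)))
  · rintro ⟨h0, h1, h⟩
    rw [df, h0, h1, List.sum_eq_zero (List.forall_mem_map.2 fun e he => by rw [h e he]; simp)]
    simp

noncomputable def ddf {N} (E : List Q4) (i : Fin N) (x : Fin N → ℝ) : ℝ :=
  2 * ex x 0 * dv i 0 + 2 * (ex x 1 - 1) * dv i 1 + (E.map fun e => 2 * (ex x e.1 * ex x e.2.1 + ex x e.2.2.1 - ex x e.2.2.2) *
    (dv i e.1 * ex x e.2.1 + ex x e.1 * dv i e.2.1 + dv i e.2.2.1 - dv i e.2.2.2)).sum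

theorem po_ddf {N} (E : List Q4) (i : Fin N) : Po 3 (6 + 24 * E.length) (ddf E i) := by
  induction E with
  | nil =>
    have a := ((po_dv i 0).ex 0).deg (e := 3) (by omega)
    have b := ((po_dv i 1).ex 1).deg (e := 3) (by omega)
    have c := ((po_dv i 1).neg).deg (e := 3) (by omega)
    exact (((a.add a).add (b.add b)).add (c.add c)).congr fun x => by simp [ddf]; ring
  | cons e E ih =>
    have g := ((((po_dv i e.1).ex e.2.1).add ((po_dv i e.2.1).ex e.1)).add ((po_dv i e.2.2.1).deg (e := 1) (by omega))).add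
      ((po_dv i e.2.2.2).deg (e := 1) (by omega)).neg
    have h := (((g.ex e.2.1).ex e.1).add ((g.ex e.2.2.1).deg (e := 3) (by omega))).add
      ((g.ex e.2.2.2).deg (e := 3) (by omega)).neg
    exact ((ih.add (h.add h)).congr fun x => by simp [ddf]; ring).le (by simp; omega)

theorem der_df {N} (E : List Q4) (x : Fin N → ℝ) (i) :
    HasDerivAt (fun t => df (ex (Function.update x i t)) E) (ddf E i x) (x i) := by
  induction E with
  | nil =>
    refine ((((der_ex x i 0).fun_pow 2).fun_add (((der_ex x i 1).sub_const 1).fun_pow 2)).congr_deriv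
      (by simp [ddf])).congr_of_eventuallyEq (.of_forall fun t => by simp [df])
  | cons e E ih =>
    refine ((ih.fun_add (((((der_ex x i e.1).fun_mul (der_ex x i e.2.1)).fun_add (der_ex x i e.2.2.1)).fun_sub
      (der_ex x i e.2.2.2)).fun_pow 2)).congr_deriv (by simp [ddf]; ring)).congr_of_eventuallyEq
      (.of_forall fun t => by simp [df]; ring)

theorem cont_df {N} (E : List Q4) : Continuous fun x : Fin N → ℝ => df (ex x) E := by
  unfold df
  exact Continuous.add (by fun_prop) (continuous_list_sum _ fun e _ => by fun_prop)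

theorem bound_le (N M : ℕ) : (4 * 5 ^ N + 1) ^ 2 * (6 + 24 * M) ^ (4 * 5 ^ N) + 1 ≤ 2 ^ 2 ^ (3 * N + M + 5) := by
  have h1 : 4 * 5 ^ N * (M + 8) ≤ 2 ^ (3 * N + M + 5) := by
    have a : 5 ^ N ≤ 8 ^ N := Nat.pow_le_pow_left (by omega) N
    have b : M + 8 ≤ 2 ^ M * 8 := by have := Nat.lt_two_pow_self (n := M); omega
    calc 4 * 5 ^ N * (M + 8) ≤ 4 * 8 ^ N * (2 ^ M * 8) := by gcongr
      _ = 2 ^ (3 * N + M + 5) := by rw [pow_add, pow_add, pow_mul]; ring
  have h0 : 0 < 4 * 5 ^ N := by positivity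
  generalize 4 * 5 ^ N = K at *
  have h2 : K + 1 ≤ 2 ^ K := Nat.lt_two_pow_self
  have h3 : 6 + 24 * M ≤ 2 ^ (M + 5) := by have := Nat.lt_two_pow_self (n := M); rw [pow_add]; omega
  have h4 : (K + 1) ^ 2 * (6 + 24 * M) ^ K ≤ 2 ^ (K * (M + 7)) :=
    calc _ ≤ (2 ^ K) ^ 2 * (2 ^ (M + 5)) ^ K := by gcongr
      _ = _ := by rw [← pow_mul, ← pow_mul, ← pow_add]; congr 1; ring
  have h5 : 2 ^ (K * (M + 7)) < 2 ^ (K * (M + 8)) := Nat.pow_lt_pow_right (by omega) (by nlinarith)
  exact (by omega : _ ≤ 2 ^ (K * (M + 8))).trans (Nat.pow_le_pow_right (by omega) h1)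

/-- a solvable system has a solution of doubly exponential size -/
theorem ball {N : ℕ} {E : List Q4} (h2 : 2 ≤ N) (hE : ∀ e ∈ E, Q4.lt N e) {y} (hy : Sat E y) :
    ∃ z, Sat E z ∧ ∀ i, |z i| ≤ 2 ^ 2 ^ (3 * N + E.length + 5) := by
  have e : ∀ i < N, ex (fun i : Fin N => y i) i = y i := fun i hi => by simp [ex, hi]
  obtain ⟨x, h0, hx⟩ := ball_core (P := fun x : Fin N → ℝ => df (ex x) E) (R := fun i x => -ddf E i x) (by omega)
    (fun i => (po_ddf E i).neg) (fun x => df_nonneg _ _) (cont_df E) (fun x i => by simpa using der_df E x i)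
    (y := fun i => y i) ((df_zero _ _).2 ⟨by rw [e 0 (by omega), hy.1], by rw [e 1 (by omega), hy.2.1],
      fun q hq => Q4.ok_congr (hE q hq) e (hy.2.2 q hq)⟩)
  refine ⟨ex x, (df_zero _ _).1 h0, fun i => ?_⟩
  unfold ex
  split_ifs with c
  · refine (hx _).trans ?_
    rw [Fintype.card_fin]
    exact_mod_cast bound_le N E.length
  · simp

/-- bilinear forms as lists of terms `c * u i * v j` -/
abbrev Bf := List (ℤ × ℕ × ℕ)

noncomputable def Bf.val (Q : Bf) (u v : ℕ → ℝ) : ℝ := (Q.map fun t => (t.1 : ℝ) * (u t.2.1 * v t.2.2)).sum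

def hom (a : List Unit × List Q4) : List Unit × List Bf :=
  (List.replicate (4 * a.1.length + a.2.length + 8) (),
    (a.2.map fun e => [(1, e.1, e.2.1), (1, e.2.2.1, 1), (-1, e.2.2.2, 1)]) ++
    ((List.range (3 * a.1.length + a.2.length + 5)).map fun k =>
      [(1, a.1.length + 3 + k, a.1.length), (-1, a.1.length + 2 + k, a.1.length + 2 + k)]) ++
    [[(1, 0, 0)], [(2, a.1.length + 2, a.1.length), (-1, a.1.length, a.1.length)],
      [(1, 1, a.1.length), (-1, 4 * a.1.length + a.2.length + 7, a.1.length)],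
      (-((4 * a.1.length + a.2.length + 8 : ℕ) : ℤ), a.1.length, a.1.length) ::
        (List.range (4 * a.1.length + a.2.length + 8)).map fun i => (1, i, i)])

theorem pt_hom : PT hom := by unfold hom; fun_prop

theorem hom_lt (N E) (h3 : 3 ≤ N.length) (hE : ∀ e ∈ E, Q4.lt N.length e) :
    ∀ Q ∈ (hom (N, E)).2, ∀ t ∈ Q, t.2.1 < (hom (N, E)).1.length ∧ t.2.2 < (hom (N, E)).1.length := by
  simp only [hom, List.forall_mem_append, List.forall_mem_map, List.forall_mem_cons, List.length_replicate,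
    List.not_mem_nil, false_imp_iff, implies_true, and_true, List.mem_range]
  refine ⟨⟨fun e he => ?_, fun k hk => by omega⟩, by omega, by omega, by omega, by omega, fun i hi => by omega⟩
  have := hE e he
  unfold Q4.lt at this
  omega

theorem hom_iff (N E) (h3 : 3 ≤ N.length) (hE : ∀ e ∈ E, Q4.lt N.length e) : (∃ y, Sat E y) ↔
    ∃ u : ℕ → ℝ, (∃ i < (hom (N, E)).1.length, u i ≠ 0) ∧ ∀ Q ∈ (hom (N, E)).2, Bf.val Q u u = 0 := by
  simp only [hom, List.forall_mem_append, List.forall_mem_map, List.forall_mem_cons, List.length_replicate,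
    List.not_mem_nil, false_imp_iff, implies_true, and_true, List.mem_range, Bf.val, List.map_cons, List.sum_cons,
    List.map_nil, List.sum_nil, List.map_map, Function.comp_def, Int.cast_one, Int.cast_neg, one_mul, add_zero,
    Int.cast_ofNat, Int.cast_natCast]
  rw [show 4 * N.length + E.length + 7 = N.length + 2 + (3 * N.length + E.length + 5) by omega,
    show 4 * N.length + E.length + 8 = N.length + 2 + (3 * N.length + E.length + 5) + 1 by omega]
  have ls : ∀ (n : ℕ) (f : ℕ → ℝ), ((List.range n).map f).sum = ∑ i ∈ range n, f i := fun n f => rfl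
  simp only [ls]
  constructor
  · rintro ⟨y, hy⟩
    obtain ⟨z, ⟨h0, h1, h⟩, hz⟩ := ball (by omega) hE hy
    generalize 3 * N.length + E.length + 5 = L at *
    generalize N.length = n at *
    let w : ℕ → ℝ := fun i => if i < n then (2 ^ 2 ^ L)⁻¹ * z i else if i = n then 1 else if i = n + 1 then 0
      else (2 ^ 2 ^ (i - (n + 2)))⁻¹
    have hw : ∀ i, w i * w i ≤ 1 := fun i => by
      rw [← sq, sq_le_one_iff_abs_le_one]
      simp only [w]
      split_ifs
      · rw [abs_mul, abs_inv, abs_of_pos (by positivity), inv_mul_le_iff₀ (by positivity), mul_one]; exact hz i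
      · simp
      · simp
      · rw [abs_of_pos (by positivity)]; exact inv_le_one_of_one_le₀ (one_le_pow₀ (by norm_num))
    have S : ∑ i ∈ range (n + 2 + L + 1), w i * w i ≤ (n + 2 + L + 1 : ℕ) := by
      simpa using sum_le_card_nsmul _ _ _ fun i (_ : i ∈ range (n + 2 + L + 1)) => hw i
    let u := Function.update w (n + 1) √((n + 2 + L + 1 : ℕ) - ∑ i ∈ range (n + 2 + L + 1), w i * w i)
    have e1 : ∀ i < n, u i = (2 ^ 2 ^ L)⁻¹ * z i := fun i hi => by simp [u, w, hi, show i ≠ n + 1 by omega]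
    have e2 : u n = 1 := by simp [u, w]
    have e3 : ∀ k, u (n + 2 + k) = (2 ^ 2 ^ k)⁻¹ := fun k => by
      simp [u, w, show n + 2 + k ≠ n + 1 by omega, show n + 2 + k ≠ n by omega, show ¬n + 2 + k < n by omega]
    refine ⟨u, ⟨n, by omega, by simp [e2]⟩, ⟨fun e he => ?_, fun k hk => ?_⟩, by simp [e1 0 (by omega), h0], ?_, ?_, ?_⟩
    · obtain ⟨a, b, c, d⟩ := hE e he
      rw [e1 _ a, e1 _ b, e1 _ c, e1 _ d, e1 1 (by omega), h1, ← h e he]
      ring
    · rw [show n + 3 + k = n + 2 + (k + 1) by omega, e3, e3, e2, pow_succ 2 k, pow_mul]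
      field_simp
      ring
    · have := e3 0
      rw [add_zero] at this
      rw [this, e2]; norm_num
    · rw [e3, e2, e1 1 (by omega), h1]; ring
    · have m : n + 1 ∈ range (n + 2 + L + 1) := mem_range.2 (by omega)
      have a : ∑ i ∈ range (n + 2 + L + 1), u i * u i = u (n + 1) * u (n + 1) + ∑ i ∈ range (n + 2 + L + 1), w i * w i := by
        rw [← add_sum_erase _ _ m, ← add_sum_erase _ (fun i => w i * w i) m,
          show w (n + 1) = 0 by simp [w], mul_zero, zero_add]
        congr 1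
        exact sum_congr rfl fun i hi => by simp [u, Function.update_of_ne (mem_erase.1 hi).1]
      rw [a, e2]
      simp only [u, Function.update_self]
      rw [Real.mul_self_sqrt (by linarith)]
      ring
  · rintro ⟨u, ⟨i, hi, hu⟩, ⟨h1, h2⟩, h0, h4, h5, h6⟩
    generalize 3 * N.length + E.length + 5 = L at *
    generalize N.length = n at *
    have t0 : u n ≠ 0 := fun e => by
      rw [e] at h6
      have := single_le_sum (f := fun i => u i * u i) (fun _ _ => mul_self_nonneg _) (mem_range.2 hi)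
      exact hu (mul_self_eq_zero.1 (le_antisymm (by linarith) (mul_self_nonneg _)))
    have e : ∀ k ≤ L, u (n + 2 + k) ≠ 0 := fun k hk => by
      induction k with
      | zero => intro c; rw [add_zero] at c; simp [c, t0] at h4
      | succ k ih =>
        intro c
        have := h2 k (by omega)
        rw [show n + 3 + k = n + 2 + (k + 1) by omega, c] at this
        simp [ih (by omega)] at this
    have u1 : u 1 ≠ 0 := fun c => by simp [c, t0, e L le_rfl] at h5
    refine ⟨fun i => u i / u 1, by simp [mul_self_eq_zero.1 h0], div_self u1, fun q hq => ?_⟩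
    have := h1 q hq
    unfold Q4.ok
    field_simp
    linarith

/-- hardness from the existence of a nonzero common real zero of quadratic forms -/
theorem etr_of_hom {β : Type} [Enc β] {B : β → Prop} (f : List Unit × List Bf → β) (hf : PT f)
    (h : ∀ n F, 0 < n.length → (∀ Q ∈ F, ∀ t ∈ Q, t.2.1 < n.length ∧ t.2.2 < n.length) →
      ((∃ u : ℕ → ℝ, (∃ i < n.length, u i ≠ 0) ∧ ∀ Q ∈ F, Bf.val Q u u = 0) ↔ B (f (n, F)))) : Red ETR B :=
  etr_of_qs (fun a => f (hom a)) (hf.comp pt_hom) fun N E h3 hE =>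
    (hom_iff N E h3 hE).trans (h _ _ (by simp [hom]) (hom_lt N E h3 hE))

end Pool.Agent.KS6_60.Lib.ER
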