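import Pool.Agent.KS6_60.Lib.CXEtrH

/-! Separation bound for quadratic forms without a nonzero common zero. -/

namespace Pool.Agent.KS6_60.Lib.ER

open Finset Filter Topology

theorem Po.zsmul {ι : Type} [Fintype ι] [DecidableEq ι] {d B} {f : (ι → ℝ) → ℝ} (h : Po d B f) (c : ℤ) :
    Po d (c.natAbs * B) fun x => c * f x := by
  have : ∀ k : ℕ, Po d (k * B) fun x => k * f x := fun k => by
    induction k with
    | zero => exact (Po.zero _).congr (by simp)
    | succ k ih => exact ((ih.add h).congr fun x => by push_cast; ring).le (by rw [Nat.succ_mul])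
  rcases Int.natAbs_eq c with e | e
  · exact (this _).congr fun x => by rw [e]; simp
  · exact (this _).neg.congr fun x => by rw [e]; simp

def Bf.l1 (Q : Bf) : ℕ := (Q.map fun t => t.1.natAbs).sum

noncomputable def dval {N} (Q : Bf) (i : Fin N) (x : Fin N → ℝ) : ℝ :=
  (Q.map fun t => (t.1 : ℝ) * (dv i t.2.1 * ex x t.2.2 + ex x t.2.1 * dv i t.2.2)).sum

theorem po_dval {N} (Q : Bf) (i : Fin N) : Po 1 (Q.l1 * 2) (dval Q i) := by
  induction Q with
  | nil => exact (Po.zero _).congr (by simp [dval])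
  | cons t Q ih =>
    exact ((((((po_dv i t.2.1).ex t.2.2).add ((po_dv i t.2.2).ex t.2.1)).zsmul t.1).add ih).congr fun x => by
      simp [dval, mul_comm]).le (by simp [Bf.l1]; omega)

theorem po_val {N B} {g : (Fin N → ℝ) → ℝ} (h : Po 1 B g) (Q : Bf) :
    Po 3 (Q.l1 * B) fun x => Q.val (ex x) (ex x) * g x := by
  induction Q with
  | nil => exact (Po.zero _).congr (by simp [Bf.val])
  | cons t Q ih =>
    exact (((((h.ex t.2.2).ex t.2.1).zsmul t.1).add ih).congr fun x => by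
      simp [Bf.val]; ring).le (by simp [Bf.l1, add_mul])

theorem der_val {N} (Q : Bf) (x : Fin N → ℝ) (i) : HasDerivAt
    (fun t => Q.val (ex (Function.update x i t)) (ex (Function.update x i t))) (dval Q i x) (x i) := by
  induction Q with
  | nil => simpa [Bf.val, dval] using hasDerivAt_const (x i) (0 : ℝ)
  | cons t Q ih =>
    exact (((((der_ex x i t.2.1).fun_mul (der_ex x i t.2.2)).const_mul (t.1 : ℝ)).fun_add ih).congr_deriv
      (by simp [dval])).congr_of_eventuallyEq (.of_forall fun t => by simp [Bf.val])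

noncomputable def pf (F : List Bf) (u : ℕ → ℝ) : ℝ := (F.map fun Q => Q.val u u ^ 2).sum

noncomputable def dpf {N} (F : List Bf) (i : Fin N) (x : Fin N → ℝ) : ℝ :=
  (F.map fun Q => 2 * Q.val (ex x) (ex x) * dval Q i x).sum

theorem po_dpf {N} (F : List Bf) (i : Fin N) : Po 3 (4 * (F.map fun Q => Q.l1 * Q.l1).sum) (dpf F i) := by
  induction F with
  | nil => exact (Po.zero _).congr (by simp [dpf])
  | cons Q F ih =>
    have := po_val (po_dval Q i) Q
    exact (((this.add this).add ih).congr fun x => by simp [dpf]; ring).le (by simp; nlinarith)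

theorem der_pf {N} (F : List Bf) (x : Fin N → ℝ) (i) :
    HasDerivAt (fun t => pf F (ex (Function.update x i t))) (dpf F i x) (x i) := by
  induction F with
  | nil => simpa [pf, dpf] using hasDerivAt_const (x i) (0 : ℝ)
  | cons Q F ih =>
    exact ((((der_val Q x i).fun_pow 2).fun_add ih).congr_deriv
      (by simp [dpf])).congr_of_eventuallyEq (.of_forall fun t => by simp [pf])

theorem cont_pf {N} (F : List Bf) : Continuous fun x : Fin N → ℝ => pf F (ex x) :=
  continuous_list_sum _ fun Q _ => Continuous.pow (continuous_list_sum _ fun t _ => by fun_prop) 2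

theorem val_smul (Q : Bf) (a b : ℝ) (u v : ℕ → ℝ) : Q.val (fun i => a * u i) (fun i => b * v i) = a * b * Q.val u v := by
  induction Q with
  | nil => simp [Bf.val]
  | cons t Q ih => simp only [Bf.val, List.map_cons, List.sum_cons] at ih ⊢; rw [ih]; ring

theorem val_congr {n} {Q : Bf} (h : ∀ t ∈ Q, t.2.1 < n ∧ t.2.2 < n) {u v u' v' : ℕ → ℝ} (hu : ∀ i < n, u i = u' i)
    (hv : ∀ i < n, v i = v' i) : Q.val u v = Q.val u' v' :=
  congrArg List.sum (List.map_congr_left fun t ht => by rw [hu _ (h t ht).1, hv _ (h t ht).2])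

theorem pf_smul {N} (F : List Bf) (a : ℝ) (x : Fin N → ℝ) : pf F (ex (a • x)) = a ^ 4 * pf F (ex x) := by
  have : ex (a • x) = fun i => a * ex x i := funext fun i => by unfold ex; split_ifs <;> simp
  rw [this, pf, pf, ← List.sum_map_mul_left]
  exact congrArg List.sum (List.map_congr_left fun Q _ => by rw [val_smul]; ring)

theorem bound_le' (N M H : ℕ) (h3 : H ≤ 2 ^ (M + 5)) :
    (4 * 5 ^ N + 1) ^ 2 * H ^ (4 * 5 ^ N) + 1 ≤ 2 ^ 2 ^ (3 * N + M + 5) := by
  have h1 : 4 * 5 ^ N * (M + 8) ≤ 2 ^ (3 * N + M + 5) := by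
    have a : 5 ^ N ≤ 8 ^ N := Nat.pow_le_pow_left (by omega) N
    have b : M + 8 ≤ 2 ^ M * 8 := by have := Nat.lt_two_pow_self (n := M); omega
    calc 4 * 5 ^ N * (M + 8) ≤ 4 * 8 ^ N * (2 ^ M * 8) := by gcongr
      _ = 2 ^ (3 * N + M + 5) := by rw [pow_add, pow_add, pow_mul]; ring
  have h0 : 0 < 4 * 5 ^ N := by positivity
  generalize 4 * 5 ^ N = K at *
  have h2 : K + 1 ≤ 2 ^ K := Nat.lt_two_pow_self
  have h4 : (K + 1) ^ 2 * H ^ K ≤ 2 ^ (K * (M + 7)) :=
    calc _ ≤ (2 ^ K) ^ 2 * (2 ^ (M + 5)) ^ K := by gcongr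
      _ = _ := by rw [← pow_mul, ← pow_mul, ← pow_add]; congr 1; ring
  have h5 : 2 ^ (K * (M + 7)) < 2 ^ (K * (M + 8)) := Nat.pow_lt_pow_right (by omega) (by nlinarith)
  exact (by omega : _ ≤ 2 ^ (K * (M + 8))).trans (Nat.pow_le_pow_right (by omega) h1)

theorem sep {n : ℕ} {F : List Bf} (hF : ∀ Q ∈ F, ∀ t ∈ Q, t.2.1 < n ∧ t.2.2 < n)
    (hno : ¬∃ u : ℕ → ℝ, (∃ i < n, u i ≠ 0) ∧ ∀ Q ∈ F, Bf.val Q u u = 0) {M : ℕ}
    (hM : 4 * (F.map fun Q => Q.l1 * Q.l1).sum + 4 ≤ 2 ^ (M + 5)) (u : ℕ → ℝ) :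
    (∑ i ∈ range n, u i ^ 2) ^ 2 ≤ 2 * n * (2 ^ 2 ^ (3 * n + M + 5)) ^ 2 * pf F u := by
  have p0 : ∀ u, 0 ≤ pf F u := fun u => List.sum_nonneg (List.forall_mem_map.2 fun _ _ => sq_nonneg _)
  have p1 : ∀ x : Fin n → ℝ, ∑ i, x i ^ 2 ≠ 0 → 0 < pf F (ex x) := fun x hx => (p0 _).lt_of_ne fun e => by
    obtain ⟨i, -, hi⟩ := exists_ne_zero_of_sum_ne_zero hx
    refine hno ⟨ex x, ⟨i, i.2, by simpa [ex] using hi⟩, fun Q hQ => pow_eq_zero_iff two_ne_zero |>.1 (le_antisymm ?_ (sq_nonneg _))⟩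
    exact (List.single_le_sum (l := F.map fun Q => Q.val (ex x) (ex x) ^ 2) (List.forall_mem_map.2 fun _ _ => sq_nonneg _) _
      (List.mem_map_of_mem hQ)).trans e.symm.le
  have cp : ∀ r : ℝ, IsCompact {x : Fin n → ℝ | ∑ i, x i ^ 2 ≤ r} := fun r =>
    (isCompact_closedBall (0 : Fin n → ℝ) (|r| + 1)).of_isClosed_subset (isClosed_le (by fun_prop) (by fun_prop))
      fun x hx => by
        rw [mem_closedBall_zero_iff, pi_norm_le_iff_of_nonneg (by positivity)]
        intro i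
        have := (single_le_sum (f := fun i => x i ^ 2) (fun _ _ => sq_nonneg _) (mem_univ i)).trans hx
        rw [Real.norm_eq_abs]
        nlinarith [sq_nonneg (|x i| - 1), sq_abs (x i), le_abs_self r]
  have ss : ∀ (a : ℝ) (x : Fin n → ℝ), ∑ i, (a • x) i ^ 2 = a ^ 2 * ∑ i, x i ^ 2 := fun a x => by
    simp [mul_pow, mul_sum]
  have s0 : ∀ x : Fin n → ℝ, 0 ≤ ∑ i, x i ^ 2 := fun x => sum_nonneg fun _ _ => sq_nonneg _
  obtain ⟨μ, μ0, hμ⟩ := ((cp 1).of_isClosed_subset (t := {x : Fin n → ℝ | ∑ i, x i ^ 2 = 1})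
    (isClosed_eq (by fun_prop) (by fun_prop)) fun x hx => le_of_eq hx).exists_forall_le' (cont_pf F).continuousOn
    fun x hx => p1 x (by rw [hx]; simp)
  obtain ⟨y, hy⟩ := ((cont_pf F).sub (show Continuous fun x : Fin n → ℝ => 2 * ∑ i, x i ^ 2 by fun_prop)).exists_forall_le' 0
    (by
      filter_upwards [(cp (2 / μ)).compl_mem_cocompact] with x hx
      have hx : 2 / μ < ∑ i, x i ^ 2 := not_le.1 hx
      have a : 0 < ∑ i, x i ^ 2 := lt_trans (by positivity) hx
      have := hμ ((√(∑ i, x i ^ 2))⁻¹ • x) (by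
        rw [Set.mem_ofPred_eq, ss, inv_pow, Real.sq_sqrt a.le, inv_mul_cancel₀ a.ne'])
      rw [pf_smul, inv_pow, show 4 = 2 * 2 from rfl, pow_mul, Real.sq_sqrt a.le, le_inv_mul_iff₀ (by positivity)] at this
      have z : pf F (ex (0 : Fin n → ℝ)) = 0 := by simpa using pf_smul F 0 (0 : Fin n → ℝ)
      rw [div_lt_iff₀ μ0] at hx
      simp only [z, Pi.sub_apply, Pi.zero_apply]
      simp
      nlinarith)
  simp only [Pi.sub_apply] at hy
  obtain ⟨x, hx, hb⟩ := ball_core (P := fun x : Fin n → ℝ => pf F (ex x) - 2 * ∑ i, x i ^ 2 - (pf F (ex y) - 2 * ∑ i, y i ^ 2))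
    (R := fun i x => -dpf F i x + (4 : ℤ) * (x i * 1)) (H := 4 * (F.map fun Q => Q.l1 * Q.l1).sum + 4) (by omega)
    (fun i => (po_dpf F i).neg.add (((Po.one (d := 2)).var i).zsmul 4)) (fun x => sub_nonneg.2 (hy x))
    (((cont_pf F).sub (by fun_prop)).sub continuous_const) (fun x i => by
      have e : ∀ t, ∑ j, Function.update x i t j ^ 2 = t ^ 2 + ∑ j ∈ univ \ {i}, x j ^ 2 := fun t => by
        rw [← sum_update_of_mem (mem_univ i)]
        exact sum_congr rfl fun j _ => Function.apply_update (fun _ u => u ^ 2) x i t j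
      simp only [e]
      exact (((der_pf F x i).fun_sub (((hasDerivAt_pow 2 (x i)).add_const _).const_mul 2)).sub_const _).congr_deriv
        (by simp; ring)) (y := y) (sub_self _)
  have hB : ∀ i, |x i| ≤ 2 ^ 2 ^ (3 * n + M + 5) := fun i => (hb i).trans (by
    rw [Fintype.card_fin]; exact_mod_cast bound_le' n M _ hM)
  generalize (2 : ℝ) ^ 2 ^ (3 * n + M + 5) = B at *
  have h1 : ∑ i, x i ^ 2 ≤ n * B ^ 2 := by
    simpa using sum_le_card_nsmul univ (fun i => x i ^ 2) (B ^ 2) fun i _ => by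
      rw [← sq_abs]; exact pow_le_pow_left₀ (abs_nonneg _) (hB i) 2
  have e : pf F u = pf F (ex fun i : Fin n => u i) := congrArg List.sum (List.map_congr_left fun Q hQ => by
    rw [val_congr (hF Q hQ) (u' := ex fun i : Fin n => u i) (v' := ex fun i : Fin n => u i)
      (fun i hi => by simp [ex, hi]) fun i hi => by simp [ex, hi]])
  rw [e, sum_range]
  by_cases c : ∑ i : Fin n, u i ^ 2 = 0
  · rw [c, zero_pow two_ne_zero]; exact mul_nonneg (by positivity) (p0 _)
  have q := p1 _ c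
  have := hy (√((∑ i : Fin n, u i ^ 2) / pf F (ex fun i : Fin n => u i)) • fun i : Fin n => u i)
  rw [pf_smul, ss, show 4 = 2 * 2 from rfl, pow_mul, Real.sq_sqrt (div_nonneg (s0 _) q.le)] at this
  generalize ∑ i : Fin n, u i ^ 2 = s at *
  generalize pf F (ex fun i : Fin n => u i) = p at *
  have a : (s / p) ^ 2 * p - 2 * (s / p * s) = -(s ^ 2 / p) := by field_simp; ring
  rw [← div_le_iff₀ q]
  linarith [p0 (ex x)]

end Pool.Agent.KS6_60.Lib.ER
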