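import Pool.Agent.KS6_60.Lib.CXDefs

/-! Graphs and digraphs as inputs of decision problems. -/

namespace Pool.Agent.KS6_60.Lib.CX

/-- a graph as an input: the number of vertices in unary and a list of pairs of vertices -/
abbrev Gr := List Unit × List (ℕ × ℕ)

/-- the number of vertices -/
abbrev Gr.n (a : Gr) : ℕ := a.1.length

/-- the simple graph on `Fin a.n` whose edges are the listed pairs -/
def Gr.G (a : Gr) : SimpleGraph (Fin a.n) := SimpleGraph.fromRel fun u v => (u.1, v.1) ∈ a.2

/-- the digraph on `Fin a.n` whose arcs are the listed pairs -/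
def Gr.arc (a : Gr) (u v : Fin a.n) : Prop := (u.1, v.1) ∈ a.2

end Pool.Agent.KS6_60.Lib.CX
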